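import Pool.Agent.NH67.VB.Defs

/-! # Basic facts on test functions -/

set_option autoImplicit false

open MeasureTheory Metric Set Filter
open scoped ContDiff Gradient Topology ENNReal

namespace Pool.Agent.NH67.VB

variable {n : ℕ} {Ω : Set (Eu n)} {φ ψ : Eu n → ℝ}

theorem IsTest.continuous (h : IsTest Ω φ) : Continuous φ := h.smooth.continuous

theorem IsTest.differentiable (h : IsTest Ω φ) : Differentiable ℝ φ :=
  h.smooth.differentiable (by simp)

theorem continuous_gradient {f : Eu n → ℝ} (h : ContDiff ℝ 1 f) : Continuous (∇ f) := by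
  have h1 : Continuous (fderiv ℝ f) := h.continuous_fderiv (by norm_num)
  exact (InnerProductSpace.toDual ℝ (Eu n)).symm.continuous.comp h1

theorem contDiff_one_of_smooth {f : Eu n → ℝ} (h : ContDiff ℝ ∞ f) : ContDiff ℝ 1 f :=
  h.of_le (WithTop.coe_le_coe.mpr le_top)

theorem IsTest.continuous_gradient (h : IsTest Ω φ) : Continuous (∇ φ) :=
  Pool.Agent.NH67.VB.continuous_gradient (contDiff_one_of_smooth h.smooth)

theorem gradient_eq_zero_of_notMem_tsupport {f : Eu n → ℝ} {x : Eu n} (h : x ∉ tsupport f) :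
    ∇ f x = 0 := by
  have : f =ᶠ[𝓝 x] fun _ => 0 := notMem_tsupport_iff_eventuallyEq.1 h
  rw [this.gradient_eq, gradient_fun_const]

theorem hasCompactSupport_gradient {f : Eu n → ℝ} (h : HasCompactSupport f) :
    HasCompactSupport (∇ f) := by
  apply HasCompactSupport.intro h
  intro x hx
  exact gradient_eq_zero_of_notMem_tsupport hx

theorem tsupport_gradient_subset (f : Eu n → ℝ) : tsupport (∇ f) ⊆ tsupport f := by
  apply closure_minimal _ (isClosed_tsupport f)
  intro x hx
  by_contra h
  exact hx (gradient_eq_zero_of_notMem_tsupport h)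

theorem gradient_mul {f g : Eu n → ℝ} {x : Eu n} (hf : DifferentiableAt ℝ f x)
    (hg : DifferentiableAt ℝ g x) : ∇ (fun y => f y * g y) x = f x • ∇ g x + g x • ∇ f x := by
  have h1 := hf.hasFDerivAt.mul hg.hasFDerivAt
  have h2 : HasGradientAt (fun y => f y * g y) (f x • ∇ g x + g x • ∇ f x) x := by
    rw [hasGradientAt_iff_hasFDerivAt, map_add, map_smul, map_smul, toDual_gradient,
      toDual_gradient]
    exact h1
  exact h2.gradient

theorem IsTest.mul_smooth (h : IsTest Ω φ) (hψ : ContDiff ℝ ∞ ψ) :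
    IsTest Ω (fun x => ψ x * φ x) := by
  refine ⟨hψ.mul h.smooth, ?_, ?_⟩
  · exact h.compact.mul_left
  · exact (tsupport_mul_subset_right).trans h.supp

theorem cc_integrable {F : Type*} [NormedAddCommGroup F] {f : Eu n → F} (hf : Continuous f)
    (hc : HasCompactSupport f) : Integrable f volume :=
  hf.integrable_of_hasCompactSupport hc

theorem IsTest.integrable_sq (h : IsTest Ω φ) : Integrable (fun x => φ x ^ 2) volume := by
  have hc : Continuous fun x => φ x ^ 2 := h.continuous.pow 2
  refine cc_integrable hc (HasCompactSupport.intro h.compact ?_)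
  intro x hx
  rw [image_eq_zero_of_notMem_tsupport hx]
  simp

theorem IsTest.integrable_gradient_sq (h : IsTest Ω φ) :
    Integrable (fun x => ‖∇ φ x‖ ^ 2) volume := by
  have hc : Continuous fun x => ‖∇ φ x‖ ^ 2 := h.continuous_gradient.norm.pow 2
  refine cc_integrable hc (HasCompactSupport.intro h.compact ?_)
  intro x hx
  rw [gradient_eq_zero_of_notMem_tsupport hx]
  simp

theorem rayleigh (h : IsTest Ω φ) : lam1 Ω * ∫ x, φ x ^ 2 ≤ ∫ x, ‖∇ φ x‖ ^ 2 := by
  by_cases h0 : φ = 0
  · subst h0
    simp only [Pi.zero_apply, ne_eq, OfNat.ofNat_ne_zero, not_false_eq_true, zero_pow,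
      integral_zero, mul_zero]
    positivity
  have hpos : 0 < ∫ x, φ x ^ 2 := by
    rw [integral_pos_iff_support_of_nonneg (fun x => sq_nonneg _) h.integrable_sq]
    have hsupp : Function.support (fun x => φ x ^ 2) = Function.support φ := by
      ext x; simp
    rw [hsupp]
    exact h.continuous.isOpen_support.measure_pos _ (Function.support_nonempty_iff.2 h0)
  rw [← le_div_iff₀ hpos]
  apply csInf_le
  · refine ⟨0, ?_⟩
    rintro q ⟨φ, -, -, rfl⟩
    positivity
  · exact ⟨φ, h, h0, rfl⟩

theorem lam1_nonneg (Ω : Set (Eu n)) : 0 ≤ lam1 Ω := by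
  apply Real.sInf_nonneg
  rintro q ⟨φ, -, -, rfl⟩
  positivity

end Pool.Agent.NH67.VB
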