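import Pool.Agent.NH67.VB.Slab

/-! # Upper bound for the eigenvalue, cutoff functions -/

set_option autoImplicit false

open MeasureTheory Metric Set Filter
open scoped ContDiff Gradient Topology ENNReal

namespace Pool.Agent.NH67.VB

variable {n : ℕ}

theorem gradient_comp_affine {f : Eu n → ℝ} (hf : Differentiable ℝ f) (a : ℝ) (c x : Eu n) :
    ∇ (fun x => f (a • (x - c))) x = a • ∇ f (a • (x - c)) := by
  have h1 : HasFDerivAt (fun x : Eu n => a • (x - c)) (a • ContinuousLinearMap.id ℝ (Eu n)) x :=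
    ((hasFDerivAt_id x).sub_const c).const_smul a
  have h2 := (hf (a • (x - c))).hasFDerivAt.comp x h1
  have h3 : HasGradientAt (fun x => f (a • (x - c))) (a • ∇ f (a • (x - c))) x := by
    rw [hasGradientAt_iff_hasFDerivAt]
    refine h2.congr_fderiv ?_
    ext w
    simp
  exact h3.gradient

theorem contDiff_aff (a : ℝ) (c : Eu n) : ContDiff ℝ ∞ fun x : Eu n => a • (x - c) := by
  fun_prop

theorem integral_affine (f : Eu n → ℝ) {r : ℝ} (hr : 0 < r) (c : Eu n) :
    ∫ x, f (r⁻¹ • (x - c)) = r ^ n * ∫ x, f x := by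
  have h1 : ∫ x, f (r⁻¹ • (x - c)) = ∫ x, f (r⁻¹ • x) :=
    integral_sub_right_eq_self (fun x => f (r⁻¹ • x)) c
  rw [h1, Measure.integral_comp_inv_smul_of_nonneg volume f hr.le, smul_eq_mul,
    finrank_euclideanSpace_fin]

/-- a fixed bump -/
noncomputable def bmp (n : ℕ) : ContDiffBump (0 : Eu n) := ⟨1 / 4, 1 / 2, by norm_num, by norm_num⟩

/-- the constant in the upper bound for the eigenvalue -/
noncomputable def Klam (n : ℕ) : ℝ := (∫ x, ‖∇ (bmp n) x‖ ^ 2) / ∫ x, bmp n x ^ 2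

theorem Klam_nonneg (n : ℕ) : 0 ≤ Klam n := by unfold Klam; positivity

theorem isTest_bmp {Ω : Set (Eu n)} {c : Eu n} {r : ℝ} (hr : 0 < r) (hb : ball c r ⊆ Ω) :
    IsTest Ω (fun x => bmp n (r⁻¹ • (x - c))) := by
  have hsub : Function.support (fun x => bmp n (r⁻¹ • (x - c))) ⊆ closedBall c (r / 2) := by
    intro x hx
    have h1 : r⁻¹ • (x - c) ∈ Function.support (bmp n) := hx
    rw [(bmp n).support_eq] at h1
    have h2 : ‖r⁻¹ • (x - c)‖ < 1 / 2 := by simpa [bmp] using h1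
    rw [norm_smul, norm_inv, Real.norm_of_nonneg hr.le, inv_mul_lt_iff₀ hr] at h2
    rw [mem_closedBall, dist_eq_norm]
    linarith
  have hts := closure_minimal hsub isClosed_closedBall
  refine ⟨?_, ?_, ?_⟩
  · exact (bmp n).contDiff.comp (contDiff_aff _ _)
  · exact HasCompactSupport.of_support_subset_isCompact (isCompact_closedBall _ _) hsub
  · refine hts.trans (subset_trans ?_ hb)
    exact closedBall_subset_ball (by linarith)

theorem lam1_le {Ω : Set (Eu n)} {c : Eu n} {r : ℝ} (hr : 0 < r) (hb : ball c r ⊆ Ω) :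
    lam1 Ω ≤ Klam n / r ^ 2 := by
  have ht := isTest_bmp hr hb
  have hr1 := rayleigh ht
  have hd : Differentiable ℝ (bmp n) := (bmp n).contDiff.differentiable (n := 1) (by norm_num)
  have e1 : ∫ x, (bmp n (r⁻¹ • (x - c))) ^ 2 = r ^ n * ∫ x, bmp n x ^ 2 :=
    integral_affine (fun x => bmp n x ^ 2) hr c
  have e2 : ∫ x, ‖∇ (fun x => bmp n (r⁻¹ • (x - c))) x‖ ^ 2 =
      (r ^ 2)⁻¹ * (r ^ n * ∫ x, ‖∇ (bmp n) x‖ ^ 2) := by
    rw [← integral_affine (fun x => ‖∇ (bmp n) x‖ ^ 2) hr c, ← integral_const_mul]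
    congr 1
    funext x
    rw [gradient_comp_affine hd, norm_smul, mul_pow, norm_inv, Real.norm_of_nonneg hr.le, inv_pow]
  rw [e1, e2] at hr1
  have hpos : 0 < ∫ x, bmp n x ^ 2 := by
    have hi : Integrable (fun x => bmp n x ^ 2) volume := by
      have hc : Continuous fun x => bmp n x ^ 2 := (bmp n).continuous.pow 2
      refine cc_integrable hc (HasCompactSupport.intro (bmp n).hasCompactSupport ?_)
      intro x hx
      rw [image_eq_zero_of_notMem_tsupport hx]; simp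
    rw [integral_pos_iff_support_of_nonneg (fun x => sq_nonneg _) hi]
    have hsupp : Function.support (fun x => bmp n x ^ 2) = ball (0 : Eu n) (1 / 2) := by
      ext x
      rw [Function.mem_support, ne_eq, pow_eq_zero_iff (by norm_num), ← ne_eq,
        ← Function.mem_support, (bmp n).support_eq]
      rfl
    rw [hsupp]
    exact measure_ball_pos _ _ (by norm_num)
  unfold Klam
  rw [div_div, le_div_iff₀ (by positivity)]
  have h3 : lam1 Ω * ((∫ x, bmp n x ^ 2) * r ^ 2) * (r ^ n * (r ^ 2)⁻¹) ≤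
      (∫ x, ‖∇ (bmp n) x‖ ^ 2) * (r ^ n * (r ^ 2)⁻¹) := by
    have e3 : lam1 Ω * ((∫ x, bmp n x ^ 2) * r ^ 2) * (r ^ n * (r ^ 2)⁻¹) =
        lam1 Ω * (r ^ n * ∫ x, bmp n x ^ 2) := by
      field_simp
    rw [e3]
    linarith
  exact le_of_mul_le_mul_right h3 (by positivity)

/-- the bump of the cutoff -/
noncomputable def cbm (n : ℕ) : ContDiffBump (0 : Eu n) :=
  ⟨1 / 12, 1 / 6, by norm_num, by norm_num⟩

theorem exists_cbm_bound (n : ℕ) : ∃ C : ℝ, 0 ≤ C ∧ ∀ x, ‖∇ (cbm n) x‖ ≤ C := by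
  have hc : Continuous (∇ (cbm n)) := continuous_gradient (cbm n).contDiff
  have hs : HasCompactSupport (∇ (cbm n)) := hasCompactSupport_gradient (cbm n).hasCompactSupport
  obtain ⟨C, hC⟩ := hs.exists_bound_of_continuous hc
  exact ⟨C, (norm_nonneg _).trans (hC 0), hC⟩

/-- the gradient bound of the cutoff -/
noncomputable def Ccut (n : ℕ) : ℝ := (exists_cbm_bound n).choose

theorem Ccut_nonneg (n : ℕ) : 0 ≤ Ccut n := (exists_cbm_bound n).choose_spec.1

theorem cbm_bound (x : Eu n) : ‖∇ (cbm n) x‖ ≤ Ccut n := (exists_cbm_bound n).choose_spec.2 x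

/-- the cutoff: `0` on `B(z, D/12)`, `1` outside `B(z, D/6)` -/
noncomputable def cut (z : Eu n) (D : ℝ) (x : Eu n) : ℝ := 1 - cbm n (D⁻¹ • (x - z))

theorem cut_smooth (z : Eu n) (D : ℝ) : ContDiff ℝ ∞ (cut z D) :=
  contDiff_const.sub ((cbm n).contDiff.comp (contDiff_aff _ _))

theorem cut_mem (z : Eu n) (D : ℝ) (x : Eu n) : 0 ≤ cut z D x ∧ cut z D x ≤ 1 := by
  unfold cut
  have h1 := (cbm n).nonneg' (D⁻¹ • (x - z))
  have h2 : cbm n (D⁻¹ • (x - z)) ≤ 1 := (cbm n).le_one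
  constructor <;> linarith

theorem cut_eq_zero {z : Eu n} {D : ℝ} (hD : 0 < D) {x : Eu n} (hx : ‖x - z‖ ≤ D / 12) :
    cut z D x = 0 := by
  unfold cut
  have h1 : D⁻¹ • (x - z) ∈ closedBall (0 : Eu n) (cbm n).rIn := by
    have : (cbm n).rIn = 1 / 12 := rfl
    rw [this, mem_closedBall, dist_zero_right, norm_smul, norm_inv, Real.norm_of_nonneg hD.le,
      inv_mul_le_iff₀ hD]
    linarith
  rw [(cbm n).one_of_mem_closedBall h1]
  ring

theorem cut_eq_one {z : Eu n} {D : ℝ} (hD : 0 < D) {x : Eu n} (hx : D / 6 ≤ ‖x - z‖) :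
    cut z D x = 1 := by
  unfold cut
  have h1 : cbm n (D⁻¹ • (x - z)) = 0 := by
    apply (cbm n).zero_of_le_dist
    have : (cbm n).rOut = 1 / 6 := rfl
    rw [this, dist_zero_right, norm_smul, norm_inv, Real.norm_of_nonneg hD.le,
      le_inv_mul_iff₀ hD]
    linarith
  rw [h1]; ring

theorem norm_gradient_cut {z : Eu n} {D : ℝ} (hD : 0 < D) (x : Eu n) :
    ‖∇ (cut z D) x‖ ≤ Ccut n / D := by
  have hd : Differentiable ℝ (cbm n) := (cbm n).contDiff.differentiable (n := 1) (by norm_num)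
  have h1 : ∇ (cut z D) x = -(D⁻¹ • ∇ (cbm n) (D⁻¹ • (x - z))) := by
    rw [← gradient_comp_affine hd]
    have h2 : DifferentiableAt ℝ (fun x => cbm n (D⁻¹ • (x - z))) x := by
      apply DifferentiableAt.comp (f := fun x : Eu n => D⁻¹ • (x - z)) x (hd _)
      fun_prop
    have h3 : HasGradientAt (cut z D) (-(∇ (fun x => cbm n (D⁻¹ • (x - z))) x)) x := by
      rw [hasGradientAt_iff_hasFDerivAt, map_neg, toDual_gradient]
      exact h2.hasFDerivAt.const_sub 1
    exact h3.gradient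
  rw [h1, norm_neg, norm_smul, norm_inv, Real.norm_of_nonneg hD.le, div_eq_inv_mul]
  gcongr
  exact cbm_bound _

end Pool.Agent.NH67.VB
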