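import Pool.Agent.NH67.VB.Main

/-! # The sup norm bound -/

set_option autoImplicit false

open MeasureTheory Metric Set Filter
open scoped ContDiff Gradient Topology ENNReal

namespace Pool.Agent.NH67.VB

variable {n : ℕ} {Ω : Set (Eu n)} {u : Eu n → ℝ} {G : Eu n → Eu n} {φ : ℕ → Eu n → ℝ}

/-- the Gaussian mass bound at scale `ρ = t³ D` -/
theorem mass_bound (hn : 0 < n) (hconv : Convex ℝ Ω) (h : EData Ω (lam1 Ω) u G φ) {z p : Eu n}
    (hz : z ∈ Ω) {D t K : ℝ} (hD : 0 < D) (ht : 0 < t) (ht1 : t ≤ 1)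
    (hK : lam1 Ω ≤ K / (t ^ 3 * D) ^ 2) (hpz : D / 3 ≤ ‖p - z‖) :
    mass Ω u p (1 / (t ^ 3 * D)) ≤ (Real.pi / 2 * C4 n K + 36) * t * ∫ x in Ω, u x ^ 2 := by
  set ρ := t ^ 3 * D with hρ
  have hρ0 : 0 < ρ := by positivity
  have hsb := shell_bound hn hconv h hz hD ht ht1 hK ‖p - z‖
  rw [← hρ] at hsb
  have hu2 : Integrable (fun y => u y ^ 2) (volume.restrict Ω) := h.hu.mem0.integrable_sq
  have hum : AEStronglyMeasurable u (volume.restrict Ω) := h.hu.mem0.1
  have hηc : Continuous (cut z D) := (cut_smooth z D).continuous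
  have hswc := sw_continuous z ‖p - z‖ ρ
  have hN0 : 0 ≤ ∫ x in Ω, u x ^ 2 := integral_nonneg fun _ => sq_nonneg _
  have hpt : ∀ y, gs (1 / ρ) p y * u y ^ 2 ≤
      sw z ‖p - z‖ ρ y * (cut z D y * u y) ^ 2 + 36 * t ^ 6 * u y ^ 2 := by
    intro y
    have hg : gs (1 / ρ) p y ≤ 1 / (1 + (‖y - p‖ / ρ) ^ 2) := by
      unfold gs
      rw [Real.exp_neg, ← one_div]
      apply one_div_le_one_div_of_le (by positivity)
      have := Real.add_one_le_exp ((1 / ρ) ^ 2 * ‖y - p‖ ^ 2)
      have e : (1 / ρ) ^ 2 * ‖y - p‖ ^ 2 = (‖y - p‖ / ρ) ^ 2 := by ring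
      rw [e] at this ⊢
      linarith
    have hsw0 : 0 ≤ sw z ‖p - z‖ ρ y := by unfold sw; positivity
    by_cases hy : D / 6 ≤ ‖y - z‖
    · rw [cut_eq_one hD hy, one_mul]
      have h1 : 1 / (1 + (‖y - p‖ / ρ) ^ 2) ≤ sw z ‖p - z‖ ρ y := by
        unfold sw
        apply one_div_le_one_div_of_le (by positivity)
        have h2 : |‖y - z‖ - ‖p - z‖| ≤ ‖y - p‖ := by
          have := abs_norm_sub_norm_le (y - z) (p - z)
          rwa [sub_sub_sub_cancel_right] at this
        have h3 : (‖y - z‖ - ‖p - z‖) ^ 2 ≤ ‖y - p‖ ^ 2 := by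
          rw [← sq_abs]; exact pow_le_pow_left₀ (abs_nonneg _) h2 2
        rw [div_pow, div_pow]
        gcongr
      have h4 : 0 ≤ 36 * t ^ 6 * u y ^ 2 := by positivity
      have h5 : gs (1 / ρ) p y * u y ^ 2 ≤ sw z ‖p - z‖ ρ y * u y ^ 2 := by
        apply mul_le_mul_of_nonneg_right (hg.trans h1) (sq_nonneg _)
      linarith
    · push Not at hy
      have h1 : D / 6 ≤ ‖y - p‖ := by
        have h2 : ‖p - z‖ ≤ ‖y - p‖ + ‖y - z‖ := by
          have : p - z = (y - z) - (y - p) := by abel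
          rw [this]
          have := norm_sub_le (y - z) (y - p)
          linarith
        linarith
      have h3 : 1 / (1 + (‖y - p‖ / ρ) ^ 2) ≤ 36 * t ^ 6 := by
        rw [div_le_iff₀ (by positivity)]
        have h4 : (D / 6 / ρ) ^ 2 ≤ (‖y - p‖ / ρ) ^ 2 := by gcongr
        have h5 : 36 * t ^ 6 * (D / 6 / ρ) ^ 2 = 1 := by
          rw [hρ]; field_simp; norm_num
        have h6 : 36 * t ^ 6 * (D / 6 / ρ) ^ 2 ≤ 36 * t ^ 6 * (‖y - p‖ / ρ) ^ 2 := by gcongr
        have h7 : 0 ≤ 36 * t ^ 6 := by positivity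
        nlinarith
      have h8 : gs (1 / ρ) p y * u y ^ 2 ≤ 36 * t ^ 6 * u y ^ 2 :=
        mul_le_mul_of_nonneg_right (hg.trans h3) (sq_nonneg _)
      have h9 : 0 ≤ sw z ‖p - z‖ ρ y * (cut z D y * u y) ^ 2 := by positivity
      linarith
  have tv := (h.mul hηc).mem0
  have i1 : Integrable (fun y => sw z ‖p - z‖ ρ y * (cut z D y * u y) ^ 2)
      (volume.restrict Ω) := by
    refine hu2.mono' ((hswc.aestronglyMeasurable).mul (tv.1.pow 2)) (ae_of_all _ fun y => ?_)
    have hsw0 : 0 ≤ sw z ‖p - z‖ ρ y := by unfold sw; positivity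
    have hsw1 : sw z ‖p - z‖ ρ y ≤ 1 := by
      unfold sw
      rw [div_le_one (by positivity)]
      have : 0 ≤ ((‖y - z‖ - ‖p - z‖) / ρ) ^ 2 := by positivity
      linarith
    rw [Real.norm_of_nonneg (by positivity)]
    have hc := cut_mem z D y
    have hc2 : (cut z D y * u y) ^ 2 ≤ u y ^ 2 := by
      rw [mul_pow]
      have : cut z D y ^ 2 ≤ 1 := pow_le_one₀ hc.1 hc.2
      nlinarith [sq_nonneg (u y)]
    calc sw z ‖p - z‖ ρ y * (cut z D y * u y) ^ 2 ≤ 1 * u y ^ 2 := by gcongr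
      _ = _ := one_mul _
  have i2 : Integrable (fun y => 36 * t ^ 6 * u y ^ 2) (volume.restrict Ω) := hu2.const_mul _
  have hm : mass Ω u p (1 / ρ) ≤
      (∫ y in Ω, sw z ‖p - z‖ ρ y * (cut z D y * u y) ^ 2) + 36 * t ^ 6 * ∫ y in Ω, u y ^ 2 := by
    unfold mass
    rw [← integral_const_mul, ← integral_add i1 i2]
    apply integral_mono_of_nonneg _ (i1.add i2) (ae_of_all _ hpt)
    apply ae_of_all
    intro y
    have : 0 ≤ gs (1 / ρ) p y := (Real.exp_pos _).le
    simp only [Pi.zero_apply]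
    positivity
  have ht6 : t ^ 6 ≤ t := by
    calc t ^ 6 = t ^ 5 * t := by ring
      _ ≤ 1 * t := by
        gcongr
        exact pow_le_one₀ ht.le ht1
      _ = t := one_mul t
  calc mass Ω u p (1 / ρ) ≤ _ := hm
    _ ≤ Real.pi / 2 * C4 n K * t * (∫ x in Ω, u x ^ 2) + 36 * t * ∫ x in Ω, u x ^ 2 := by
        gcongr
    _ = _ := by ring

/-- the constant of the heat bound -/
noncomputable def C6 (n : ℕ) (K : ℝ) : ℝ := Real.exp (K / 2) * (Real.pi / 2 * C4 n K + 36)

theorem C6_pos (n : ℕ) {K : ℝ} (hK : 0 ≤ K) : 0 < C6 n K := by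
  have := C4_nonneg n hK
  have := Real.pi_pos
  unfold C6
  positivity

/-- heat averages are small at all small scales -/
theorem heat_bound (hn : 0 < n) (hconv : Convex ℝ Ω) (h : EData Ω (lam1 Ω) u G φ) {z p : Eu n}
    (hz : z ∈ Ω) {D t K : ℝ} (hD : 0 < D) (ht : 0 < t) (ht1 : t ≤ 1)
    (hK : lam1 Ω ≤ K / (t ^ 3 * D) ^ 2) (hpz : D / 3 ≤ ‖p - z‖) {b : ℝ}
    (hb : 1 / (t ^ 3 * D) ≤ b) :
    b ^ n * mass Ω u p b ≤ C6 n K * (t ^ 3 * D)⁻¹ ^ n * t * ∫ x in Ω, u x ^ 2 := by
  have hmb := mass_bound hn hconv h hz hD ht ht1 hK hpz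
  set ρ := t ^ 3 * D with hρ
  have hρ0 : 0 < ρ := by positivity
  have hb0 : 0 < 1 / ρ := by positivity
  have hanti := h.antitone p (show 1 / ρ ∈ Ioi (0 : ℝ) from hb0)
    (show b ∈ Ioi (0 : ℝ) from hb0.trans_le hb) hb
  simp only at hanti
  have hlam := lam1_nonneg Ω
  have hm0 := mass_nonneg Ω u p b
  have hm1 := mass_nonneg Ω u p (1 / ρ)
  have hbp : 0 < b := hb0.trans_le hb
  have h1 : b ^ n * mass Ω u p b ≤ b ^ n * Real.exp (lam1 Ω / (2 * b ^ 2)) * mass Ω u p b := by
    have h2 : 1 ≤ Real.exp (lam1 Ω / (2 * b ^ 2)) := Real.one_le_exp (by positivity)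
    have h3 : 0 ≤ b ^ n * mass Ω u p b := by positivity
    nlinarith
  have hN0 : 0 ≤ ∫ x in Ω, u x ^ 2 := integral_nonneg fun _ => sq_nonneg _
  have hE : Real.exp (lam1 Ω / (2 * (1 / ρ) ^ 2)) ≤ Real.exp (K / 2) := by
    apply Real.exp_le_exp.2
    have : lam1 Ω / (2 * (1 / ρ) ^ 2) = lam1 Ω * ρ ^ 2 / 2 := by field_simp
    rw [this]
    rw [le_div_iff₀ (by positivity)] at hK
    linarith
  calc b ^ n * mass Ω u p b ≤ _ := h1
    _ ≤ _ := hanti
    _ ≤ (1 / ρ) ^ n * Real.exp (K / 2) *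
        ((Real.pi / 2 * C4 n K + 36) * t * ∫ x in Ω, u x ^ 2) := by gcongr
    _ = _ := by
        unfold C6
        rw [one_div]
        ring

/-- the pointwise bound, almost everywhere -/
theorem ae_bound (h : EData Ω (lam1 Ω) u G φ) {M b0 : ℝ} (hb0 : 0 < b0)
    (hM : ∀ p : Eu n, ∀ b : ℝ, b0 ≤ b → b ^ n * mass Ω u p b ≤ M) :
    ∀ᵐ x ∂(volume.restrict Ω),
      u x ^ 2 ≤ Real.exp 1 / (volume : Measure (Eu n)).real (closedBall 0 1) * M := by
  set om := (volume : Measure (Eu n)).real (closedBall 0 1) with hom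
  have homp : 0 < om := by
    rw [hom, measureReal_def]
    exact ENNReal.toReal_pos (measure_closedBall_pos volume _ one_pos).ne'
      measure_closedBall_lt_top.ne
  have hu2 : Integrable (fun y => u y ^ 2) (volume.restrict Ω) := h.hu.mem0.integrable_sq
  set f : Eu n → ℝ := Ω.indicator (fun y => u y ^ 2) with hf
  have hfi : Integrable f volume := (integrable_indicator_iff h.opn.measurableSet).2 hu2
  have hf0 : ∀ y, 0 ≤ f y := fun y => indicator_nonneg (fun _ _ => sq_nonneg _) y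
  have hleb := IsUnifLocDoublingMeasure.ae_tendsto_average (volume : Measure (Eu n))
    hfi.locallyIntegrable 0
  have hall : ∀ᵐ x : Eu n, f x ≤ Real.exp 1 / om * M := by
    filter_upwards [hleb] with x hx
    have hδ : Tendsto (fun j : ℕ => 1 / (b0 + j)) atTop (𝓝[>] (0 : ℝ)) := by
      apply tendsto_nhdsWithin_iff.2
      constructor
      · have : Tendsto (fun j : ℕ => b0 + (j : ℝ)) atTop atTop :=
          tendsto_atTop_add_const_left _ _ tendsto_natCast_atTop_atTop
        exact tendsto_const_nhds.div_atTop this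
      · apply Eventually.of_forall
        intro j
        simp only [mem_Ioi]
        positivity
    have hlim := hx (fun _ : ℕ => x) (fun j : ℕ => 1 / (b0 + j)) hδ
      (Eventually.of_forall fun j => by simp)
    apply le_of_tendsto' hlim
    intro j
    set b := b0 + (j : ℝ) with hb
    have hbb : b0 ≤ b := by rw [hb]; linarith [Nat.cast_nonneg (α := ℝ) j]
    have hbp : 0 < b := hb0.trans_le hbb
    have hvol : (volume : Measure (Eu n)).real (closedBall x (1 / b)) = (1 / b) ^ n * om := by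
      rw [measureReal_def, Measure.addHaar_closedBall' volume x (by positivity),
        finrank_euclideanSpace_fin, ENNReal.toReal_mul, ENNReal.toReal_ofReal (by positivity), hom,
        measureReal_def]
    rw [setAverage_eq, hvol, smul_eq_mul]
    have hmass : ∫ y in closedBall x (1 / b), f y ≤ Real.exp 1 * mass Ω u x b := by
      have hmul : Integrable (fun y => gs b x y * f y) volume := by
        refine hfi.mono' ((contDiff_gs b x).continuous.aestronglyMeasurable.mul hfi.1)
          (ae_of_all _ fun y => ?_)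
        have h1 : gs b x y ≤ 1 := by
          unfold gs; rw [Real.exp_le_one_iff]; simp only [Left.neg_nonpos_iff]; positivity
        have h2 : 0 ≤ gs b x y := (Real.exp_pos _).le
        rw [Real.norm_of_nonneg (mul_nonneg h2 (hf0 y))]
        nlinarith [hf0 y]
      have h1 : mass Ω u x b = ∫ y, gs b x y * f y := by
        unfold mass
        rw [← integral_indicator h.opn.measurableSet]
        congr 1
        funext y
        rw [hf]
        by_cases hy : y ∈ Ω
        · simp [indicator_of_mem hy]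
        · simp [indicator_of_notMem hy]
      rw [h1, ← integral_const_mul, ← integral_indicator measurableSet_closedBall]
      apply integral_mono (hfi.indicator measurableSet_closedBall) (hmul.const_mul _)
      intro y
      simp only
      have h2 : 0 ≤ gs b x y := (Real.exp_pos _).le
      by_cases hy : y ∈ closedBall x (1 / b)
      · rw [indicator_of_mem hy]
        have h3 : ‖y - x‖ ≤ 1 / b := by simpa [dist_eq_norm] using hy
        have h4 : b ^ 2 * ‖y - x‖ ^ 2 ≤ 1 := by
          calc b ^ 2 * ‖y - x‖ ^ 2 ≤ b ^ 2 * (1 / b) ^ 2 := by gcongr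
            _ = 1 := by field_simp
        have h5 : 1 ≤ Real.exp 1 * gs b x y := by
          unfold gs
          rw [← Real.exp_add]
          apply Real.one_le_exp
          linarith
        have := hf0 y
        nlinarith
      · rw [indicator_of_notMem hy]
        have := hf0 y
        positivity
    have h6 := hM x b hbb
    calc ((1 / b) ^ n * om)⁻¹ * ∫ y in closedBall x (1 / b), f y
        ≤ ((1 / b) ^ n * om)⁻¹ * (Real.exp 1 * mass Ω u x b) := by gcongr
      _ = Real.exp 1 / om * (b ^ n * mass Ω u x b) := by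
          rw [one_div, inv_pow]
          field_simp
      _ ≤ Real.exp 1 / om * M := by gcongr
  rw [ae_restrict_iff' h.opn.measurableSet]
  filter_upwards [hall] with x hx hxΩ
  rw [hf, indicator_of_mem hxΩ] at hx
  exact hx

end Pool.Agent.NH67.VB
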