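import Pool.Agent.NH67.VB.Final

/-! # Inradius and diameter -/

set_option autoImplicit false

open MeasureTheory Metric Set Filter
open scoped ContDiff Gradient Topology ENNReal

namespace Pool.Agent.NH67.VB

variable {n : ℕ} {Ω : Set (Eu n)}

theorem radius_le_diam (hn : 0 < n) (hb : Bornology.IsBounded Ω) {c : Eu n} {r : ℝ}
    (h : ball c r ⊆ Ω) : r ≤ Metric.diam Ω := by
  by_contra hcon
  push Not at hcon
  have hd0 : 0 ≤ Metric.diam Ω := Metric.diam_nonneg
  have hr : 0 < r := hd0.trans_lt hcon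
  set s := (Metric.diam Ω + r) / 2 with hs
  have hs1 : Metric.diam Ω < s := by rw [hs]; linarith
  have hs2 : s < r := by rw [hs]; linarith
  have hs0 : 0 ≤ s := hd0.trans hs1.le
  set e : Eu n := EuclideanSpace.single ⟨0, hn⟩ 1 with he
  have hen : ‖e‖ = 1 := by simp [he]
  have hc : c ∈ Ω := h (mem_ball_self hr)
  have hc2 : c + s • e ∈ Ω := by
    apply h
    rw [mem_ball, dist_eq_norm, add_sub_cancel_left, norm_smul, hen, mul_one,
      Real.norm_of_nonneg hs0]
    exact hs2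
  have := Metric.dist_le_diam_of_mem hb hc2 hc
  rw [dist_eq_norm, add_sub_cancel_left, norm_smul, hen, mul_one, Real.norm_of_nonneg hs0] at this
  linarith

theorem inradius_bddAbove (hn : 0 < n) (hb : Bornology.IsBounded Ω) :
    BddAbove {r : ℝ | ∃ c : Eu n, ball c r ⊆ Ω} :=
  ⟨Metric.diam Ω, fun _ ⟨_, hr⟩ => radius_le_diam hn hb hr⟩

theorem inradius_pos (hn : 0 < n) (hb : Bornology.IsBounded Ω) (ho : IsOpen Ω)
    (hne : Ω.Nonempty) : 0 < inradius Ω := by
  obtain ⟨c, hc⟩ := hne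
  obtain ⟨r, hr, hsub⟩ := Metric.isOpen_iff.1 ho c hc
  exact hr.trans_le (le_csSup (inradius_bddAbove hn hb) ⟨c, hsub⟩)

theorem inradius_le_diam (hn : 0 < n) (hb : Bornology.IsBounded Ω) :
    inradius Ω ≤ Metric.diam Ω := by
  apply Real.sSup_le
  · rintro r ⟨c, hr⟩
    exact radius_le_diam hn hb hr
  · exact Metric.diam_nonneg

theorem exists_ball_half (hn : 0 < n) (hb : Bornology.IsBounded Ω) (ho : IsOpen Ω)
    (hne : Ω.Nonempty) : ∃ c : Eu n, ball c (inradius Ω / 2) ⊆ Ω := by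
  have hpos := inradius_pos hn hb ho hne
  have hlt : inradius Ω / 2 < inradius Ω := by linarith
  have hne' : {r : ℝ | ∃ c : Eu n, ball c r ⊆ Ω}.Nonempty := by
    obtain ⟨c, hc⟩ := hne
    obtain ⟨r, hr, hsub⟩ := Metric.isOpen_iff.1 ho c hc
    exact ⟨r, c, hsub⟩
  obtain ⟨r, ⟨c, hc⟩, hr⟩ := exists_lt_of_lt_csSup hne' hlt
  exact ⟨c, (ball_subset_ball hr.le).trans hc⟩

theorem exists_far (hD : 0 < Metric.diam Ω) (p : Eu n) :
    ∃ z ∈ Ω, Metric.diam Ω / 3 ≤ ‖p - z‖ := by
  by_contra hcon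
  push Not at hcon
  have : Metric.diam Ω ≤ 2 / 3 * Metric.diam Ω := by
    apply Metric.diam_le_of_forall_dist_le (by positivity)
    intro x hx y hy
    have h1 := hcon x hx
    have h2 := hcon y hy
    rw [← dist_eq_norm] at h1 h2
    have h3 := dist_triangle_left x y p
    linarith
  linarith

theorem memLp_test {φ : Eu n → ℝ} (h : IsTest Ω φ) : MemLp φ 2 (volume.restrict Ω) :=
  (h.continuous.memLp_of_hasCompactSupport h.compact).restrict _

theorem memLp_gradient {φ : Eu n → ℝ} (h : IsTest Ω φ) :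
    MemLp (∇ φ) 2 (volume.restrict Ω) :=
  (h.continuous_gradient.memLp_of_hasCompactSupport (hasCompactSupport_gradient h.compact)).restrict _

end Pool.Agent.NH67.VB
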