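import Pool.Agent.NH67.VB.Star

/-! # The heat kernel bound -/

set_option autoImplicit false

open MeasureTheory Metric Set Filter
open scoped ContDiff Gradient Topology ENNReal

namespace Pool.Agent.NH67.VB

variable {n : ℕ} {Ω : Set (Eu n)} {lam : ℝ} {u : Eu n → ℝ} {G : Eu n → Eu n}
  {φ : ℕ → Eu n → ℝ}

theorem integral_eq_setIntegral {f : Eu n → ℝ} (h : ∀ x, x ∉ Ω → f x = 0) :
    ∫ x, f x = ∫ x in Ω, f x :=
  (setIntegral_eq_integral_of_forall_compl_eq_zero h).symm

theorem IsTest.eq_zero {ψ : Eu n → ℝ} (h : IsTest Ω ψ) {x : Eu n} (hx : x ∉ Ω) : ψ x = 0 :=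
  image_eq_zero_of_notMem_tsupport fun hx' => hx (h.supp hx')

theorem IsTest.gradient_eq_zero {ψ : Eu n → ℝ} (h : IsTest Ω ψ) {x : Eu n} (hx : x ∉ Ω) :
    ∇ ψ x = 0 :=
  gradient_eq_zero_of_notMem_tsupport fun hx' => hx (h.supp hx')

/-- Euler's identity for `m φ²` -/
theorem euler_sq {ψ m : Eu n → ℝ} (hψ : IsTest Ω ψ) (hm : ContDiff ℝ ∞ m) (p : Eu n) :
    ∫ y in Ω, m y * ψ y * inner ℝ (∇ ψ y) (y - p) =
      - (1 / 2) * ∫ y in Ω, (n * m y + inner ℝ (∇ m y) (y - p)) * ψ y ^ 2 := by
  have hmd : Differentiable ℝ m := hm.differentiable (by simp)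
  have hmg : Continuous (∇ m) := continuous_gradient (contDiff_one_of_smooth hm)
  have hψg := hψ.continuous_gradient
  have hf : ContDiff ℝ ∞ (fun y => m y * (ψ y * ψ y)) := hm.mul (hψ.smooth.mul hψ.smooth)
  have hcs : HasCompactSupport (fun y => m y * (ψ y * ψ y)) := by
    apply HasCompactSupport.intro hψ.compact
    intro x hx
    rw [image_eq_zero_of_notMem_tsupport hx]
    simp
  have he := euler (contDiff_one_of_smooth hf) hcs p
  have hg : ∀ y, ∇ (fun y => m y * (ψ y * ψ y)) y =
      m y • ((2 * ψ y) • ∇ ψ y) + (ψ y * ψ y) • ∇ m y := by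
    intro y
    have hψ2 : DifferentiableAt ℝ (fun y => ψ y * ψ y) y :=
      (hψ.differentiable y).fun_mul (hψ.differentiable y)
    rw [gradient_mul (hmd y) hψ2]
    congr 2
    have := gradient_mul (hψ.differentiable y) (hψ.differentiable y)
    rw [this, ← add_smul]
    congr 1
    ring
  have hpt : ∀ y, n * (m y * (ψ y * ψ y)) + inner ℝ (∇ (fun y => m y * (ψ y * ψ y)) y) (y - p) =
      2 * (m y * ψ y * inner ℝ (∇ ψ y) (y - p)) +
        (n * m y + inner ℝ (∇ m y) (y - p)) * ψ y ^ 2 := by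
    intro y
    rw [hg, inner_add_left, inner_smul_left, inner_smul_left, inner_smul_left]
    simp only [conj_trivial]
    ring
  simp only [hpt] at he
  have hsub : Continuous fun y : Eu n => y - p := continuous_id.sub continuous_const
  have hi1 : Integrable (fun y => 2 * (m y * ψ y * inner ℝ (∇ ψ y) (y - p))) volume := by
    apply cc_integrable
    · exact continuous_const.mul ((hm.continuous.mul hψ.continuous).mul (hψg.inner hsub))
    · apply HasCompactSupport.intro hψ.compact
      intro x hx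
      rw [image_eq_zero_of_notMem_tsupport hx]
      simp
  have hi2 : Integrable (fun y => (n * m y + inner ℝ (∇ m y) (y - p)) * ψ y ^ 2) volume := by
    apply cc_integrable
    · exact ((continuous_const.mul hm.continuous).add (hmg.inner hsub)).mul
        (hψ.continuous.pow 2)
    · apply HasCompactSupport.intro hψ.compact
      intro x hx
      rw [image_eq_zero_of_notMem_tsupport hx]
      simp
  rw [integral_add hi1 hi2, integral_const_mul,
    integral_eq_setIntegral (Ω := Ω) (fun x hx => by rw [hψ.eq_zero hx]; simp),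
    integral_eq_setIntegral (Ω := Ω)
      (f := fun y => (n * m y + inner ℝ (∇ m y) (y - p)) * ψ y ^ 2)
      (fun x hx => by rw [hψ.eq_zero hx]; simp)] at he
  linarith

/-- Euler's identity for `m u²` -/
theorem EData.euler_u (h : EData Ω lam u G φ) {m : Eu n → ℝ} (hm : ContDiff ℝ ∞ m) (p : Eu n) :
    ∫ y in Ω, m y * u y * inner ℝ (G y) (y - p) =
      - (1 / 2) * ∫ y in Ω, (n * m y + inner ℝ (∇ m y) (y - p)) * u y ^ 2 := by
  have hmg : Continuous (∇ m) := continuous_gradient (contDiff_one_of_smooth hm)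
  have hsub : Continuous fun y : Eu n => y - p := continuous_id.sub continuous_const
  obtain ⟨C, _, hC⟩ := ae_bdd_on h.opn h.bdd hsub
  have t1 := (h.mul hm.continuous).tendsto_mul (h.hG.inner_field hsub.aestronglyMeasurable hC)
  have hcont : Continuous fun y => n * m y + inner ℝ (∇ m y) (y - p) :=
    (continuous_const.mul hm.continuous).add (hmg.inner hsub)
  have t2 := ((h.mul hcont).tendsto_mul h.hu).const_mul (-(1 / 2))
  have heq : ∀ k, ∫ y in Ω, m y * φ k y * inner ℝ (∇ (φ k) y) (y - p) =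
      - (1 / 2) * ∫ y in Ω, (n * m y + inner ℝ (∇ m y) (y - p)) * φ k y * φ k y := by
    intro k
    rw [euler_sq (h.test k) hm p]
    congr 2
    funext y
    ring
  simp only [heq] at t1
  have := tendsto_nhds_unique t2 t1
  rw [← this]
  congr 2
  funext y
  ring

/-- the Gaussian weight -/
noncomputable def gs (b : ℝ) (p y : Eu n) : ℝ := Real.exp (-(b ^ 2 * ‖y - p‖ ^ 2))

theorem contDiff_gs (b : ℝ) (p : Eu n) : ContDiff ℝ ∞ (gs b p) := by
  unfold gs
  apply ContDiff.exp
  apply ContDiff.neg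
  exact contDiff_const.mul ((contDiff_norm_sq ℝ).comp (contDiff_id.sub contDiff_const))

theorem gradient_gs (b : ℝ) (p y : Eu n) :
    ∇ (gs b p) y = (-(2 * b ^ 2) * gs b p y) • (y - p) := by
  have h1 : HasFDerivAt (fun y : Eu n => ‖y - p‖ ^ 2) (2 • (innerSL ℝ (y - p))) y := by
    have := ((hasFDerivAt_id y).sub_const p).norm_sq
    simpa using this
  have h2 := ((h1.const_mul (b ^ 2)).neg).exp
  have h3 : HasGradientAt (gs b p) ((-(2 * b ^ 2) * gs b p y) • (y - p)) y := by
    rw [hasGradientAt_iff_hasFDerivAt]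
    refine h2.congr_fderiv ?_
    ext v
    simp [gs, innerSL_apply_apply]
    ring
  exact h3.gradient

theorem EData.key_ineq (h : EData Ω lam u G φ) (b : ℝ) (p : Eu n) :
    b ^ 2 * ∫ y in Ω, gs b p y * (n - 2 * b ^ 2 * ‖y - p‖ ^ 2) * u y ^ 2 ≤
      lam * ∫ y in Ω, gs b p y * u y ^ 2 := by
  have hst := h.star (contDiff_gs b p)
  have heu := h.euler_u (contDiff_gs b p) p
  have h0 : 0 ≤ ∫ x in Ω, gs b p x * ‖G x‖ ^ 2 := by
    apply integral_nonneg
    intro x
    have : 0 ≤ gs b p x := (Real.exp_pos _).le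
    positivity
  have e1 : ∫ x in Ω, inner ℝ (G x) (u x • ∇ (gs b p) x) =
      -(2 * b ^ 2) * ∫ y in Ω, gs b p y * u y * inner ℝ (G y) (y - p) := by
    rw [← integral_const_mul]
    congr 1
    funext x
    rw [gradient_gs, inner_smul_right, inner_smul_right]
    ring
  have e2 : ∫ y in Ω, (n * gs b p y + inner ℝ (∇ (gs b p) y) (y - p)) * u y ^ 2 =
      ∫ y in Ω, gs b p y * (n - 2 * b ^ 2 * ‖y - p‖ ^ 2) * u y ^ 2 := by
    congr 1
    funext y
    rw [gradient_gs, inner_smul_left, real_inner_self_eq_norm_sq]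
    simp only [conj_trivial]
    ring
  rw [e2] at heu
  rw [e1, heu] at hst
  linarith

/-- the weighted mass -/
noncomputable def mass (Ω : Set (Eu n)) (u : Eu n → ℝ) (p : Eu n) (b : ℝ) : ℝ :=
  ∫ y in Ω, gs b p y * u y ^ 2

theorem EData.hasDerivAt_mass (h : EData Ω lam u G φ) (p : Eu n) (b : ℝ) :
    HasDerivAt (mass Ω u p) (∫ y in Ω, gs b p y * (-(2 * b) * ‖y - p‖ ^ 2) * u y ^ 2) b := by
  have hsub : Continuous fun y : Eu n => y - p := continuous_id.sub continuous_const
  obtain ⟨R, hR0, hR⟩ := ae_bdd_on h.opn h.bdd hsub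
  have hu2 : Integrable (fun y => u y ^ 2) (volume.restrict Ω) := h.hu.mem0.integrable_sq
  have hum : AEStronglyMeasurable u (volume.restrict Ω) := h.hu.mem0.1
  have hgs : ∀ b, Continuous (gs b p) := fun b => (contDiff_gs b p).continuous
  unfold mass
  refine (hasDerivAt_integral_of_dominated_loc_of_deriv_le
    (F := fun b y => gs b p y * u y ^ 2)
    (F' := fun b y => gs b p y * (-(2 * b) * ‖y - p‖ ^ 2) * u y ^ 2)
    (bound := fun y => (2 * (|b| + 1) * R ^ 2) * u y ^ 2)
    (ball_mem_nhds b one_pos) ?_ ?_ ?_ ?_ ?_ ?_).2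
  · filter_upwards with b'
    exact (hgs b').aestronglyMeasurable.mul (hum.pow 2)
  · refine hu2.mono' ((hgs b).aestronglyMeasurable.mul (hum.pow 2)) ?_
    apply ae_of_all
    intro y
    have h1 : gs b p y ≤ 1 := by
      unfold gs; rw [Real.exp_le_one_iff]; simp only [Left.neg_nonpos_iff]; positivity
    have h2 : 0 ≤ gs b p y := (Real.exp_pos _).le
    rw [Real.norm_of_nonneg (by positivity)]
    nlinarith [sq_nonneg (u y)]
  · exact ((hgs b).mul (continuous_const.mul (hsub.norm.pow 2))).aestronglyMeasurable.mul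
      (hum.pow 2)
  · filter_upwards [hR] with y hy b' hb'
    have hb1 : |b'| ≤ |b| + 1 := by
      have h3 : |b' - b| < 1 := by simpa [Real.dist_eq] using hb'
      have h4 := abs_sub_abs_le_abs_sub b' b
      linarith
    have h1 : gs b' p y ≤ 1 := by
      unfold gs; rw [Real.exp_le_one_iff]; simp only [Left.neg_nonpos_iff]; positivity
    have h2 : 0 ≤ gs b' p y := (Real.exp_pos _).le
    rw [norm_mul, norm_mul, norm_mul, norm_neg, norm_mul]
    simp only [Real.norm_eq_abs, abs_pow, abs_norm, abs_two, abs_of_nonneg h2, sq_abs]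
    calc gs b' p y * (2 * |b'| * ‖y - p‖ ^ 2) * u y ^ 2
        ≤ 1 * (2 * (|b| + 1) * R ^ 2) * u y ^ 2 := by gcongr
      _ = _ := by ring
  · exact hu2.const_mul _
  · apply ae_of_all
    intro y b' _
    have h1 : HasDerivAt (fun b : ℝ => -(b ^ 2 * ‖y - p‖ ^ 2)) (-(2 * b' * ‖y - p‖ ^ 2)) b' := by
      have := ((hasDerivAt_pow 2 b').mul_const (‖y - p‖ ^ 2)).fun_neg
      simpa using this
    have h2 := (h1.exp).mul_const (u y ^ 2)
    refine h2.congr_deriv ?_
    simp only [gs]
    ring

theorem mass_nonneg (Ω : Set (Eu n)) (u : Eu n → ℝ) (p : Eu n) (b : ℝ) : 0 ≤ mass Ω u p b := by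
  apply integral_nonneg
  intro x
  have : 0 ≤ gs b p x := (Real.exp_pos _).le
  positivity

/-- monotonicity of the heat average -/
theorem EData.antitone (h : EData Ω lam u G φ) (p : Eu n) :
    AntitoneOn (fun b : ℝ => b ^ n * Real.exp (lam / (2 * b ^ 2)) * mass Ω u p b) (Ioi 0) := by
  have hder : ∀ b : ℝ, 0 < b → HasDerivAt
      (fun b : ℝ => b ^ n * Real.exp (lam / (2 * b ^ 2)) * mass Ω u p b)
      (((n * b ^ (n - 1)) * Real.exp (lam / (2 * b ^ 2)) +
        b ^ n * (Real.exp (lam / (2 * b ^ 2)) * (-(lam / b ^ 3)))) * mass Ω u p b +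
        b ^ n * Real.exp (lam / (2 * b ^ 2)) *
          (∫ y in Ω, gs b p y * (-(2 * b) * ‖y - p‖ ^ 2) * u y ^ 2)) b := by
    intro b hb
    have h1 : HasDerivAt (fun b : ℝ => lam / (2 * b ^ 2)) (-(lam / b ^ 3)) b := by
      have h2 : HasDerivAt (fun b : ℝ => 2 * b ^ 2) (2 * (2 * b)) b := by
        simpa using (hasDerivAt_pow 2 b).const_mul 2
      have h3 := (hasDerivAt_const b lam).div h2 (by positivity)
      refine h3.congr_deriv ?_
      field_simp
      ring
    exact ((hasDerivAt_pow n b).mul h1.exp).mul (h.hasDerivAt_mass p b)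
  apply antitoneOn_of_deriv_nonpos (convex_Ioi 0)
  · intro b hb
    exact (hder b hb).continuousAt.continuousWithinAt
  · intro b hb
    rw [interior_Ioi] at hb
    exact (hder b hb).differentiableAt.differentiableWithinAt
  · intro b hb
    rw [interior_Ioi] at hb
    have hb0 : 0 < b := hb
    rw [(hder b hb0).deriv]
    have hkey := h.key_ineq b p
    have hu2 : Integrable (fun y => u y ^ 2) (volume.restrict Ω) := h.hu.mem0.integrable_sq
    have hum : AEStronglyMeasurable u (volume.restrict Ω) := h.hu.mem0.1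
    have hsub : Continuous fun y : Eu n => y - p := continuous_id.sub continuous_const
    obtain ⟨R, hR0, hR⟩ := ae_bdd_on h.opn h.bdd hsub
    have hgs : Continuous (gs b p) := (contDiff_gs b p).continuous
    have hi1 : Integrable (fun y => gs b p y * u y ^ 2) (volume.restrict Ω) := by
      refine hu2.mono' (hgs.aestronglyMeasurable.mul (hum.pow 2)) ?_
      apply ae_of_all
      intro y
      have h1 : gs b p y ≤ 1 := by
        unfold gs; rw [Real.exp_le_one_iff]; simp only [Left.neg_nonpos_iff]; positivity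
      have h2 : 0 ≤ gs b p y := (Real.exp_pos _).le
      rw [Real.norm_of_nonneg (by positivity)]
      nlinarith [sq_nonneg (u y)]
    have hi2 : Integrable (fun y => gs b p y * ‖y - p‖ ^ 2 * u y ^ 2) (volume.restrict Ω) := by
      refine (hu2.const_mul (R ^ 2)).mono' ((hgs.mul
        (hsub.norm.pow 2)).aestronglyMeasurable.mul (hum.pow 2)) ?_
      filter_upwards [hR] with y hy
      have h1 : gs b p y ≤ 1 := by
        unfold gs; rw [Real.exp_le_one_iff]; simp only [Left.neg_nonpos_iff]; positivity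
      have h2 : 0 ≤ gs b p y := (Real.exp_pos _).le
      rw [Real.norm_of_nonneg (by positivity)]
      calc gs b p y * ‖y - p‖ ^ 2 * u y ^ 2 ≤ 1 * R ^ 2 * u y ^ 2 := by gcongr
        _ = _ := by ring
    set J := ∫ y in Ω, gs b p y * u y ^ 2 with hJ
    set K := ∫ y in Ω, gs b p y * ‖y - p‖ ^ 2 * u y ^ 2 with hK
    have e1 : ∫ y in Ω, gs b p y * (n - 2 * b ^ 2 * ‖y - p‖ ^ 2) * u y ^ 2 =
        n * J - 2 * b ^ 2 * K := by
      rw [hJ, hK, ← integral_const_mul, ← integral_const_mul, ← integral_sub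
        (hi1.const_mul _) (hi2.const_mul _)]
      congr 1
      funext y
      ring
    have e2 : ∫ y in Ω, gs b p y * (-(2 * b) * ‖y - p‖ ^ 2) * u y ^ 2 = -(2 * b) * K := by
      rw [hK, ← integral_const_mul]
      congr 1
      funext y
      ring
    have e3 : mass Ω u p b = J := rfl
    rw [e1] at hkey
    rw [e2, e3]
    have hE : 0 < Real.exp (lam / (2 * b ^ 2)) := Real.exp_pos _
    set E := Real.exp (lam / (2 * b ^ 2)) with hEdef
    have e4 : (n * b ^ (n - 1) * E + b ^ n * (E * (-(lam / b ^ 3)))) * J +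
        b ^ n * E * (-(2 * b) * K) =
        (b ^ n * E / b ^ 3) * (b ^ 2 * (n * J - 2 * b ^ 2 * K) - lam * J) := by
      rcases Nat.eq_zero_or_pos n with rfl | hn
      · field_simp
        ring
      · have : b ^ n = b ^ (n - 1) * b := by
          rw [← pow_succ]; congr 1; omega
        rw [this]
        field_simp
        ring
    rw [e4]
    apply mul_nonpos_of_nonneg_of_nonpos
    · positivity
    · linarith

end Pool.Agent.NH67.VB
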