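import Mathlib

/-! # Convergence in `L²` -/

set_option autoImplicit false

open MeasureTheory Metric Set Filter
open scoped Topology ENNReal

namespace Pool.Agent.NH67.VB

variable {α : Type*} [MeasurableSpace α] {μ : Measure α}
variable {F : Type*} [NormedAddCommGroup F] [InnerProductSpace ℝ F]

set_option linter.unusedSectionVars false

/-- `f k → f0` in `L²(μ)` -/
structure L2T (μ : Measure α) (f : ℕ → α → F) (f0 : α → F) : Prop where
  mem : ∀ k, MemLp (f k) 2 μ
  mem0 : MemLp f0 2 μ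
  lim : Tendsto (fun k => eLpNorm (fun x => f k x - f0 x) 2 μ) atTop (𝓝 0)

theorem integrable_inner' {a b : α → F} (ha : MemLp a 2 μ) (hb : MemLp b 2 μ) :
    Integrable (fun x => inner ℝ (a x) (b x)) μ := by
  have h := L2.integrable_inner (𝕜 := ℝ) (ha.toLp a) (hb.toLp b)
  refine h.congr ?_
  filter_upwards [ha.coeFn_toLp, hb.coeFn_toLp] with x h1 h2
  rw [h1, h2]

theorem L2T.tendsto_toLp {f : ℕ → α → F} {f0 : α → F} (h : L2T μ f f0) :
    Tendsto (fun k => (h.mem k).toLp (f k)) atTop (𝓝 (h.mem0.toLp f0)) := by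
  rw [Lp.tendsto_Lp_iff_tendsto_eLpNorm'' f h.mem f0 h.mem0]
  exact h.lim

theorem L2T.tendsto_inner {f g : ℕ → α → F} {f0 g0 : α → F} (hf : L2T μ f f0)
    (hg : L2T μ g g0) :
    Tendsto (fun k => ∫ x, inner ℝ (f k x) (g k x) ∂μ) atTop
      (𝓝 (∫ x, inner ℝ (f0 x) (g0 x) ∂μ)) := by
  have key : ∀ (a b : α → F) (ha : MemLp a 2 μ) (hb : MemLp b 2 μ),
      inner ℝ (ha.toLp a) (hb.toLp b) = ∫ x, inner ℝ (a x) (b x) ∂μ := by
    intro a b ha hb
    rw [L2.inner_def]
    apply integral_congr_ae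
    filter_upwards [ha.coeFn_toLp, hb.coeFn_toLp] with x h1 h2
    rw [h1, h2]
  have h := hf.tendsto_toLp.inner hg.tendsto_toLp (𝕜 := ℝ)
  simp only [key] at h
  exact h

theorem L2T.tendsto_mul {f g : ℕ → α → ℝ} {f0 g0 : α → ℝ} (hf : L2T μ f f0)
    (hg : L2T μ g g0) :
    Tendsto (fun k => ∫ x, f k x * g k x ∂μ) atTop (𝓝 (∫ x, f0 x * g0 x ∂μ)) := by
  have h := hf.tendsto_inner hg
  simp only [real_inner_eq_re_inner, RCLike.inner_apply, conj_trivial, RCLike.re_to_real] at h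
  simpa only [mul_comm] using h

theorem L2T.const {f0 : α → F} (h : MemLp f0 2 μ) : L2T μ (fun _ => f0) f0 :=
  ⟨fun _ => h, h, by simp⟩

/-- application of a bounded pointwise linear operation -/
theorem L2T.comp {F' : Type*} [NormedAddCommGroup F'] [InnerProductSpace ℝ F']
    {f : ℕ → α → F} {f0 : α → F} (h : L2T μ f f0) (T : α → F → F') {C : ℝ}
    (hsub : ∀ x a b, T x (a - b) = T x a - T x b)
    (hm : ∀ g : α → F, MemLp g 2 μ → AEStronglyMeasurable (fun x => T x (g x)) μ)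
    (hb : ∀ᵐ x ∂μ, ∀ a, ‖T x a‖ ≤ C * ‖a‖) :
    L2T μ (fun k x => T x (f k x)) (fun x => T x (f0 x)) := by
  have hmem : ∀ g : α → F, MemLp g 2 μ → MemLp (fun x => T x (g x)) 2 μ := by
    intro g hg
    exact MemLp.of_le_mul hg (hm g hg) (by filter_upwards [hb] with x hx using hx _)
  refine ⟨fun k => hmem _ (h.mem k), hmem _ h.mem0, ?_⟩
  have hle : ∀ k, eLpNorm (fun x => T x (f k x) - T x (f0 x)) 2 μ ≤
      ENNReal.ofReal C * eLpNorm (fun x => f k x - f0 x) 2 μ := by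
    intro k
    apply eLpNorm_le_mul_eLpNorm_of_ae_le_mul
    filter_upwards [hb] with x hx
    rw [← hsub]
    exact hx _
  have hz : Tendsto (fun k => ENNReal.ofReal C * eLpNorm (fun x => f k x - f0 x) 2 μ)
      atTop (𝓝 0) := by
    have := ENNReal.Tendsto.const_mul h.lim (a := ENNReal.ofReal C)
      (Or.inr ENNReal.ofReal_ne_top)
    simpa using this
  exact tendsto_of_tendsto_of_tendsto_of_le_of_le tendsto_const_nhds hz (fun _ => bot_le) hle

/-- multiplication by a bounded function -/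
theorem L2T.smul_bdd {f : ℕ → α → F} {f0 : α → F} (h : L2T μ f f0) {m : α → ℝ} {C : ℝ}
    (hm : AEStronglyMeasurable m μ) (hb : ∀ᵐ x ∂μ, |m x| ≤ C) :
    L2T μ (fun k x => m x • f k x) (fun x => m x • f0 x) := by
  apply h.comp (fun x a => m x • a) (C := C)
  · intro x a b; exact smul_sub _ _ _
  · intro g hg; exact hm.smul hg.1
  · filter_upwards [hb] with x hx a
    rw [norm_smul]
    exact mul_le_mul_of_nonneg_right hx (norm_nonneg _)

theorem L2T.mul_bdd {f : ℕ → α → ℝ} {f0 : α → ℝ} (h : L2T μ f f0) {m : α → ℝ} {C : ℝ}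
    (hm : AEStronglyMeasurable m μ) (hb : ∀ᵐ x ∂μ, |m x| ≤ C) :
    L2T μ (fun k x => m x * f k x) (fun x => m x * f0 x) := by
  simpa only [smul_eq_mul] using h.smul_bdd hm hb

/-- multiplication of scalar functions by a bounded field -/
theorem L2T.smul_field {f : ℕ → α → ℝ} {f0 : α → ℝ} (h : L2T μ f f0) {X : α → F} {C : ℝ}
    (hm : AEStronglyMeasurable X μ) (hb : ∀ᵐ x ∂μ, ‖X x‖ ≤ C) :
    L2T μ (fun k x => f k x • X x) (fun x => f0 x • X x) := by
  apply h.comp (fun x a => a • X x) (C := C)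
  · intro x a b; exact sub_smul _ _ _
  · intro g hg; exact hg.1.smul hm
  · filter_upwards [hb] with x hx a
    rw [norm_smul, mul_comm]
    exact mul_le_mul_of_nonneg_right hx (norm_nonneg _)

/-- inner product with a bounded field -/
theorem L2T.inner_field {f : ℕ → α → F} {f0 : α → F} (h : L2T μ f f0) {X : α → F} {C : ℝ}
    (hm : AEStronglyMeasurable X μ) (hb : ∀ᵐ x ∂μ, ‖X x‖ ≤ C) :
    L2T μ (fun k x => inner ℝ (f k x) (X x)) (fun x => inner ℝ (f0 x) (X x)) := by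
  apply h.comp (fun x a => inner ℝ a (X x)) (C := C)
  · intro x a b; exact inner_sub_left _ _ _
  · intro g hg; exact hg.1.inner hm
  · filter_upwards [hb] with x hx a
    calc ‖inner ℝ a (X x)‖ ≤ ‖a‖ * ‖X x‖ := norm_inner_le_norm _ _
      _ ≤ ‖a‖ * C := mul_le_mul_of_nonneg_left hx (norm_nonneg _)
      _ = C * ‖a‖ := mul_comm _ _

theorem L2T.add {f g : ℕ → α → F} {f0 g0 : α → F} (hf : L2T μ f f0) (hg : L2T μ g g0) :
    L2T μ (fun k x => f k x + g k x) (fun x => f0 x + g0 x) := by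
  refine ⟨fun k => (hf.mem k).add (hg.mem k), hf.mem0.add hg.mem0, ?_⟩
  have hle : ∀ k, eLpNorm (fun x => (f k x + g k x) - (f0 x + g0 x)) 2 μ ≤
      eLpNorm (fun x => f k x - f0 x) 2 μ + eLpNorm (fun x => g k x - g0 x) 2 μ := by
    intro k
    have e : (fun x => (f k x + g k x) - (f0 x + g0 x)) =
        (fun x => f k x - f0 x) + fun x => g k x - g0 x := by
      funext x
      simp only [Pi.add_apply]
      abel
    rw [e]
    exact eLpNorm_add_le ((hf.mem k).sub hf.mem0).1 ((hg.mem k).sub hg.mem0).1 (by norm_num)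
  have hz := hf.lim.add hg.lim
  rw [add_zero] at hz
  exact tendsto_of_tendsto_of_tendsto_of_le_of_le tendsto_const_nhds hz (fun _ => bot_le) hle

theorem L2T.tendsto_norm_sq {f : ℕ → α → F} {f0 : α → F} (hf : L2T μ f f0) :
    Tendsto (fun k => ∫ x, ‖f k x‖ ^ 2 ∂μ) atTop (𝓝 (∫ x, ‖f0 x‖ ^ 2 ∂μ)) := by
  have h := hf.tendsto_inner hf
  simpa only [real_inner_self_eq_norm_sq] using h

theorem L2T.tendsto_sq {f : ℕ → α → ℝ} {f0 : α → ℝ} (hf : L2T μ f f0) :
    Tendsto (fun k => ∫ x, f k x ^ 2 ∂μ) atTop (𝓝 (∫ x, f0 x ^ 2 ∂μ)) := by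
  have h := hf.tendsto_norm_sq
  simpa only [Real.norm_eq_abs, sq_abs] using h

end Pool.Agent.NH67.VB
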