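import Pool.Agent.NH67.VB.Cut

/-! # Assembly -/

set_option autoImplicit false

open MeasureTheory Metric Set Filter
open scoped ContDiff Gradient Topology ENNReal

namespace Pool.Agent.NH67.VB

variable {n : ℕ} {Ω : Set (Eu n)} {u : Eu n → ℝ} {G : Eu n → Eu n} {φ : ℕ → Eu n → ℝ}

theorem notMem_tsupport_cut {z : Eu n} {D : ℝ} (hD : 0 < D) (ψ : Eu n → ℝ) :
    z ∉ tsupport (fun x => cut z D x * ψ x) := by
  rw [notMem_tsupport_iff_eventuallyEq]
  filter_upwards [ball_mem_nhds z (show 0 < D / 12 by positivity)] with x hx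
  have : ‖x - z‖ ≤ D / 12 := by
    have : ‖x - z‖ < D / 12 := by simpa [dist_eq_norm] using hx
    exact this.le
  simp [cut_eq_zero hD this]

/-- the shell weight -/
noncomputable def sw (z : Eu n) (R ρ : ℝ) (x : Eu n) : ℝ := 1 / (1 + ((‖x - z‖ - R) / ρ) ^ 2)

theorem sw_continuous (z : Eu n) (R ρ : ℝ) : Continuous (sw z R ρ) := by
  unfold sw
  apply Continuous.div (by fun_prop) (by fun_prop)
  intro x
  positivity

/-- the one-step inequality for the approximating functions -/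
theorem step_ineq (hn : 0 < n) (hconv : Convex ℝ Ω) {ψ : Eu n → ℝ} (hψ : IsTest Ω ψ) {z : Eu n}
    (hz : z ∈ Ω) {D t : ℝ} (hD : 0 < D) (ht : 0 < t) (ht1 : t ≤ 1) (R : ℝ) :
    ∫ x, sw z R (t ^ 3 * D) x * (cut z D x * ψ x) ^ 2 ≤
      Real.pi / 2 * (t ^ 3 * D) * ((12 * (n + 1) / D + 1 / (t ^ 2 * D)) *
        (∫ x, (cut z D x * ψ x) ^ 2) +
        t ^ 2 * D * ((∫ x, ‖∇ (fun x => cut z D x * ψ x) x‖ ^ 2) -
          Real.exp (-(2 * t ^ 2)) * (lam1 Ω * ∫ x, (cut z D x * ψ x) ^ 2) +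
          144 * Cfr n / (t ^ 4 * D ^ 2) * ∫ x, (cut z D x * ψ x) ^ 2)) := by
  have hv : IsTest Ω (fun x => cut z D x * ψ x) := hψ.mul_smooth (cut_smooth z D)
  have hzv := notMem_tsupport_cut hD ψ (z := z)
  set v : Eu n → ℝ := fun x => cut z D x * ψ x with hvdef
  have hv0 : ∀ x, ‖x - z‖ ≤ D / 12 → v x = 0 := by
    intro x hx
    simp [hvdef, cut_eq_zero hD hx]
  have ht2 : (0 : ℝ) < t ^ 2 := by positivity
  have ht21 : t ^ 2 ≤ 1 := pow_le_one₀ ht.le ht1
  have hfr := frozen_real hn hconv hz hv hzv ht2 ht21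
  have hsl := slab hv hzv (show 0 < t ^ 3 * D by positivity) R
    (show 0 < 1 / (t ^ 2 * D) by positivity)
  have hC := Cfr_nonneg n
  have hA0 : 0 ≤ ∫ x, v x ^ 2 := integral_nonneg fun _ => sq_nonneg _
  -- Hardy terms
  have hhd : ∫ x, hd z v x ≤ 144 / D ^ 2 * ∫ x, v x ^ 2 := by
    rw [← integral_const_mul]
    apply integral_mono (hd_integrable hv hzv) (hv.integrable_sq.const_mul _)
    intro x
    simp only [hd]
    by_cases hx : ‖x - z‖ ≤ D / 12
    · rw [hv0 x hx]; simp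
    · push Not at hx
      have h1 : (D / 12) ^ 2 ≤ ‖x - z‖ ^ 2 := by gcongr
      have hp : 0 < ‖x - z‖ := lt_trans (by positivity) hx
      rw [div_le_iff₀ (by positivity)]
      have h2 : 1 ≤ 144 / D ^ 2 * ‖x - z‖ ^ 2 := by
        rw [div_mul_eq_mul_div, le_div_iff₀ (by positivity)]
        nlinarith
      nlinarith [sq_nonneg (v x)]
  have hr : ∫ x, v x ^ 2 / ‖x - z‖ ≤ 12 / D * ∫ x, v x ^ 2 := by
    rw [← integral_const_mul]
    apply integral_mono_of_nonneg (ae_of_all _ fun x => by positivity)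
      (hv.integrable_sq.const_mul _)
    apply ae_of_all
    intro x
    simp only
    by_cases hx : ‖x - z‖ ≤ D / 12
    · rw [hv0 x hx]; simp
    · push Not at hx
      have hp : 0 < ‖x - z‖ := lt_trans (by positivity) hx
      rw [div_le_iff₀ hp]
      have h2 : 1 ≤ 12 / D * ‖x - z‖ := by
        rw [div_mul_eq_mul_div, le_div_iff₀ hD]
        linarith
      nlinarith [sq_nonneg (v x)]
  have hrd : ∫ x, rd z v x = (∫ x, ‖∇ v x‖ ^ 2) - ∫ x, tg z v x := by
    rw [← integral_sub hv.integrable_gradient_sq (tg_integrable hv z)]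
    congr 1
    funext x
    rw [tg_eq]; ring
  have htg : Real.exp (-(2 * t ^ 2)) * (lam1 Ω * ∫ x, v x ^ 2) -
      144 * Cfr n / (t ^ 4 * D ^ 2) * (∫ x, v x ^ 2) ≤ ∫ x, tg z v x := by
    have hE : Real.exp (-(2 * t ^ 2)) * Real.exp (2 * t ^ 2) = 1 := by
      rw [← Real.exp_add]; simp
    have hEp : 0 < Real.exp (-(2 * t ^ 2)) := Real.exp_pos _
    have hE1 : Real.exp (-(2 * t ^ 2)) ≤ 1 := by
      rw [Real.exp_le_one_iff]; nlinarith
    have h1 := mul_le_mul_of_nonneg_left hfr hEp.le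
    have h2 : Real.exp (-(2 * t ^ 2)) * (Real.exp (2 * t ^ 2) * (∫ x, tg z v x) +
        Cfr n / (t ^ 2) ^ 2 * ∫ x, hd z v x) = (∫ x, tg z v x) +
        Real.exp (-(2 * t ^ 2)) * (Cfr n / (t ^ 2) ^ 2 * ∫ x, hd z v x) := by
      rw [mul_add, ← mul_assoc, hE, one_mul]
    rw [h2] at h1
    have h3 : Cfr n / (t ^ 2) ^ 2 * (∫ x, hd z v x) ≤
        144 * Cfr n / (t ^ 4 * D ^ 2) * ∫ x, v x ^ 2 := by
      calc Cfr n / (t ^ 2) ^ 2 * (∫ x, hd z v x)
          ≤ Cfr n / (t ^ 2) ^ 2 * (144 / D ^ 2 * ∫ x, v x ^ 2) := by gcongr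
        _ = _ := by field_simp
    have h4 : 0 ≤ Cfr n / (t ^ 2) ^ 2 * ∫ x, hd z v x := by
      have : 0 ≤ ∫ x, hd z v x := integral_nonneg fun x => hd_nonneg z v x
      positivity
    have h5 : Real.exp (-(2 * t ^ 2)) * (Cfr n / (t ^ 2) ^ 2 * ∫ x, hd z v x) ≤
        1 * (Cfr n / (t ^ 2) ^ 2 * ∫ x, hd z v x) := by gcongr
    linarith
  have hlhs : ∫ x, sw z R (t ^ 3 * D) x * v x ^ 2 =
      ∫ x, v x ^ 2 / (1 + ((‖x - z‖ - R) / (t ^ 3 * D)) ^ 2) := by
    congr 1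
    funext x
    unfold sw
    ring
  rw [hlhs]
  refine hsl.trans ?_
  have hρ : 0 ≤ Real.pi / 2 * (t ^ 3 * D) := by
    have := Real.pi_pos
    positivity
  apply mul_le_mul_of_nonneg_left _ hρ
  have e1 : 1 / (1 / (t ^ 2 * D)) = t ^ 2 * D := by field_simp
  rw [e1, hrd]
  have h6 : ((n : ℝ) + 1) * (∫ x, v x ^ 2 / ‖x - z‖) ≤
      12 * (n + 1) / D * ∫ x, v x ^ 2 := by
    calc ((n : ℝ) + 1) * (∫ x, v x ^ 2 / ‖x - z‖) ≤ (n + 1) * (12 / D * ∫ x, v x ^ 2) := by gcongr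
      _ = _ := by ring
  have h7 : t ^ 2 * D * ((∫ x, ‖∇ v x‖ ^ 2) - ∫ x, tg z v x) ≤
      t ^ 2 * D * ((∫ x, ‖∇ v x‖ ^ 2) -
          Real.exp (-(2 * t ^ 2)) * (lam1 Ω * ∫ x, v x ^ 2) +
          144 * Cfr n / (t ^ 4 * D ^ 2) * ∫ x, v x ^ 2) := by
    apply mul_le_mul_of_nonneg_left _ (by positivity)
    linarith
  linarith

/-- the constant of the shell bound -/
noncomputable def C4 (n : ℕ) (K : ℝ) : ℝ :=
  12 * (n + 1) + 1 + 2 * K + Ccut n ^ 2 + 144 * Cfr n

theorem C4_nonneg (n : ℕ) {K : ℝ} (hK : 0 ≤ K) : 0 ≤ C4 n K := by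
  have := Cfr_nonneg n
  unfold C4
  positivity

/-- the shell bound for the eigenfunction -/
theorem shell_bound (hn : 0 < n) (hconv : Convex ℝ Ω) (h : EData Ω (lam1 Ω) u G φ) {z : Eu n}
    (hz : z ∈ Ω) {D t K : ℝ} (hD : 0 < D) (ht : 0 < t) (ht1 : t ≤ 1)
    (hK : lam1 Ω ≤ K / (t ^ 3 * D) ^ 2) (R : ℝ) :
    ∫ x in Ω, sw z R (t ^ 3 * D) x * (cut z D x * u x) ^ 2 ≤
      Real.pi / 2 * C4 n K * t * ∫ x in Ω, u x ^ 2 := by
  have hlam := lam1_nonneg Ω
  have hηs := cut_smooth z D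
  have hηc : Continuous (cut z D) := hηs.continuous
  have hηg : Continuous (∇ (cut z D)) := continuous_gradient (contDiff_one_of_smooth hηs)
  have hηd : Differentiable ℝ (cut z D) := hηs.differentiable (by simp)
  have hswc := sw_continuous z R (t ^ 3 * D)
  have hC := Cfr_nonneg n
  -- limits
  have tv := h.mul hηc
  have tg' := (h.smulG hηc).add (h.field hηg)
  have tA := tv.tendsto_sq
  have tE := tg'.tendsto_norm_sq
  have tS := (h.mul (hswc.mul hηc)).tendsto_mul tv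
  simp only [Pi.mul_apply] at tS
  have heqA : ∀ k, ∫ x, (cut z D x * φ k x) ^ 2 = ∫ x in Ω, (cut z D x * φ k x) ^ 2 := fun k =>
    integral_eq_setIntegral fun x hx => by rw [(h.test k).eq_zero hx]; simp
  have heqE : ∀ k, ∫ x, ‖∇ (fun x => cut z D x * φ k x) x‖ ^ 2 =
      ∫ x in Ω, ‖cut z D x • ∇ (φ k) x + φ k x • ∇ (cut z D) x‖ ^ 2 := by
    intro k
    have e1 : ∀ x, ∇ (fun x => cut z D x * φ k x) x =
        cut z D x • ∇ (φ k) x + φ k x • ∇ (cut z D) x := fun x =>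
      gradient_mul (hηd x) ((h.test k).differentiable x)
    simp only [e1]
    exact integral_eq_setIntegral fun x hx => by
      rw [(h.test k).eq_zero hx, (h.test k).gradient_eq_zero hx]; simp
  have heqS : ∀ k, ∫ x, sw z R (t ^ 3 * D) x * (cut z D x * φ k x) ^ 2 =
      ∫ x in Ω, sw z R (t ^ 3 * D) x * cut z D x * φ k x * (cut z D x * φ k x) := by
    intro k
    rw [integral_eq_setIntegral (Ω := Ω) (fun x hx => by rw [(h.test k).eq_zero hx]; simp)]
    congr 1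
    funext x
    ring
  have hstep := fun k => step_ineq hn hconv (h.test k) hz hD ht ht1 R
  simp only [heqA, heqE, heqS] at hstep
  have tR := ((tA.const_mul (12 * (n + 1) / D + 1 / (t ^ 2 * D))).add
    (((tE.sub ((tA.const_mul (lam1 Ω)).const_mul (Real.exp (-(2 * t ^ 2))))).add
      (tA.const_mul (144 * Cfr n / (t ^ 4 * D ^ 2)))).const_mul (t ^ 2 * D))).const_mul
        (Real.pi / 2 * (t ^ 3 * D))
  have hlim := le_of_tendsto_of_tendsto' tS tR hstep
  -- identification of the limits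
  set A := ∫ x in Ω, (cut z D x * u x) ^ 2 with hA
  set N := ∫ x in Ω, u x ^ 2 with hN
  have hu2 : Integrable (fun y => u y ^ 2) (volume.restrict Ω) := h.hu.mem0.integrable_sq
  have hA0 : 0 ≤ A := integral_nonneg fun _ => sq_nonneg _
  have hN0 : 0 ≤ N := integral_nonneg fun _ => sq_nonneg _
  have hAN : A ≤ N := by
    apply integral_mono tv.mem0.integrable_sq hu2
    intro x
    simp only
    have := cut_mem z D x
    rw [mul_pow]
    have h1 : cut z D x ^ 2 ≤ 1 := pow_le_one₀ this.1 this.2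
    nlinarith [sq_nonneg (u x)]
  have hE : ∫ x in Ω, ‖cut z D x • G x + u x • ∇ (cut z D) x‖ ^ 2 ≤
      lam1 Ω * A + (Ccut n / D) ^ 2 * N := by
    have hst := h.star (hηs.mul hηs)
    have hg2 : ∀ x, ∇ (cut z D * cut z D) x = (2 * cut z D x) • ∇ (cut z D) x := by
      intro x
      have := gradient_mul (hηd x) (hηd x)
      have e : (cut z D * cut z D) = fun y => cut z D y * cut z D y := rfl
      rw [e, this, ← add_smul]; congr 1; ring
    have hXc : L2T (volume.restrict Ω) (fun _ : ℕ => G) G := L2T.const h.hG.mem0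
    have i1 : Integrable (fun x => inner ℝ (G x) (cut z D x ^ 2 • G x)) (volume.restrict Ω) :=
      integrable_inner' h.hG.mem0 (h.smulG (hηc.pow 2)).mem0
    have i2 : Integrable (fun x => inner ℝ (G x) (u x • (2 * cut z D x) • ∇ (cut z D) x))
        (volume.restrict Ω) :=
      integrable_inner' h.hG.mem0
        (h.field (X := fun x => (2 * cut z D x) • ∇ (cut z D) x)
          ((continuous_const.mul hηc).smul hηg)).mem0
    have i3 : Integrable (fun x => inner ℝ (u x • ∇ (cut z D) x) (u x • ∇ (cut z D) x))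
        (volume.restrict Ω) :=
      integrable_inner' (h.field hηg).mem0 (h.field hηg).mem0
    have hpt : ∀ x, ‖cut z D x • G x + u x • ∇ (cut z D) x‖ ^ 2 =
        (inner ℝ (G x) (cut z D x ^ 2 • G x) +
          inner ℝ (G x) (u x • (2 * cut z D x) • ∇ (cut z D) x)) +
        inner ℝ (u x • ∇ (cut z D) x) (u x • ∇ (cut z D) x) := by
      intro x
      rw [← real_inner_self_eq_norm_sq]
      simp only [inner_add_left, inner_add_right, inner_smul_left, inner_smul_right, conj_trivial,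
        real_inner_comm (G x) (∇ (cut z D) x)]
      ring
    have i12 : Integrable (fun x => inner ℝ (G x) (cut z D x ^ 2 • G x) +
          inner ℝ (G x) (u x • (2 * cut z D x) • ∇ (cut z D) x)) (volume.restrict Ω) := i1.add i2
    simp only [hpt]
    rw [integral_add i12 i3, integral_add i1 i2]
    have e1 : ∫ x in Ω, inner ℝ (G x) (cut z D x ^ 2 • G x) =
        ∫ x in Ω, (cut z D * cut z D) x * ‖G x‖ ^ 2 := by
      congr 1
      funext x
      rw [inner_smul_right, real_inner_self_eq_norm_sq, Pi.mul_apply]; ring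
    have e2 : ∫ x in Ω, inner ℝ (G x) (u x • (2 * cut z D x) • ∇ (cut z D) x) =
        ∫ x in Ω, inner ℝ (G x) (u x • ∇ (cut z D * cut z D) x) := by
      congr 1
      funext x
      rw [hg2]
    have e3 : ∫ x in Ω, (cut z D * cut z D) x * u x ^ 2 = A := by
      rw [hA]
      congr 1
      funext x
      rw [Pi.mul_apply]; ring
    rw [e1, e2]
    have hst' : (∫ x in Ω, (cut z D * cut z D) x * ‖G x‖ ^ 2) +
        ∫ x in Ω, inner ℝ (G x) (u x • ∇ (cut z D * cut z D) x) = lam1 Ω * A := by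
      rw [← e3]; exact hst
    rw [hst']
    have e4 : ∫ x in Ω, inner ℝ (u x • ∇ (cut z D) x) (u x • ∇ (cut z D) x) ≤
        (Ccut n / D) ^ 2 * N := by
      rw [hN, ← integral_const_mul]
      apply integral_mono i3 (hu2.const_mul _)
      intro x
      simp only
      rw [real_inner_self_eq_norm_sq, norm_smul, mul_pow, Real.norm_eq_abs, sq_abs, mul_comm]
      have := norm_gradient_cut hD x (z := z)
      gcongr
    linarith
  have hSl : ∫ x in Ω, sw z R (t ^ 3 * D) x * cut z D x * u x * (cut z D x * u x) =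
      ∫ x in Ω, sw z R (t ^ 3 * D) x * (cut z D x * u x) ^ 2 := by
    congr 1
    funext x
    ring
  rw [hSl] at hlim
  refine hlim.trans ?_
  -- the numerical estimate
  set E := ∫ x in Ω, ‖cut z D x • G x + u x • ∇ (cut z D) x‖ ^ 2 with hEdef
  have hexp : 1 - 2 * t ^ 2 ≤ Real.exp (-(2 * t ^ 2)) := by
    linarith [Real.add_one_le_exp (-(2 * t ^ 2))]
  have hlamA : 0 ≤ lam1 Ω * A := by positivity
  have hK' : lam1 Ω * A ≤ K / (t ^ 3 * D) ^ 2 * N := by
    calc lam1 Ω * A ≤ lam1 Ω * N := by gcongr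
      _ ≤ _ := by gcongr
  have hK0 : 0 ≤ K := by
    have : 0 ≤ K / (t ^ 3 * D) ^ 2 := hlam.trans hK
    by_contra hneg
    push Not at hneg
    have : K / (t ^ 3 * D) ^ 2 < 0 := div_neg_of_neg_of_pos hneg (by positivity)
    linarith
  have h1 : E - Real.exp (-(2 * t ^ 2)) * (lam1 Ω * A) +
      144 * Cfr n / (t ^ 4 * D ^ 2) * A ≤
      (2 * K + Ccut n ^ 2 + 144 * Cfr n) / (t ^ 4 * D ^ 2) * N := by
    have h2 : (1 - 2 * t ^ 2) * (lam1 Ω * A) ≤ Real.exp (-(2 * t ^ 2)) * (lam1 Ω * A) := by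
      gcongr
    have h3 : 2 * t ^ 2 * (lam1 Ω * A) ≤ 2 * K / (t ^ 4 * D ^ 2) * N := by
      calc 2 * t ^ 2 * (lam1 Ω * A) ≤ 2 * t ^ 2 * (K / (t ^ 3 * D) ^ 2 * N) := by gcongr
        _ = _ := by field_simp
    have h4 : (Ccut n / D) ^ 2 * N ≤ Ccut n ^ 2 / (t ^ 4 * D ^ 2) * N := by
      rw [div_pow]
      have : t ^ 4 * D ^ 2 ≤ D ^ 2 := by
        have : t ^ 4 ≤ 1 := pow_le_one₀ ht.le ht1
        nlinarith [sq_nonneg D]
      gcongr
    have h5 : 144 * Cfr n / (t ^ 4 * D ^ 2) * A ≤ 144 * Cfr n / (t ^ 4 * D ^ 2) * N := by gcongr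
    have e : (2 * K + Ccut n ^ 2 + 144 * Cfr n) / (t ^ 4 * D ^ 2) * N =
        2 * K / (t ^ 4 * D ^ 2) * N + Ccut n ^ 2 / (t ^ 4 * D ^ 2) * N +
        144 * Cfr n / (t ^ 4 * D ^ 2) * N := by ring
    rw [e]
    linarith
  have h6 : (12 * (n + 1) / D + 1 / (t ^ 2 * D)) * A ≤
      (12 * (n + 1) + 1) / (t ^ 2 * D) * N := by
    have h7 : 12 * ((n : ℝ) + 1) / D ≤ 12 * (n + 1) / (t ^ 2 * D) := by
      have : t ^ 2 * D ≤ D := by
        have : t ^ 2 ≤ 1 := pow_le_one₀ ht.le ht1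
        nlinarith
      gcongr
    calc (12 * ((n : ℝ) + 1) / D + 1 / (t ^ 2 * D)) * A
        ≤ (12 * (n + 1) / (t ^ 2 * D) + 1 / (t ^ 2 * D)) * N := by gcongr
      _ = _ := by ring
  have hπ := Real.pi_pos
  calc Real.pi / 2 * (t ^ 3 * D) * ((12 * (n + 1) / D + 1 / (t ^ 2 * D)) * A +
        t ^ 2 * D * (E - Real.exp (-(2 * t ^ 2)) * (lam1 Ω * A) +
          144 * Cfr n / (t ^ 4 * D ^ 2) * A))
      ≤ Real.pi / 2 * (t ^ 3 * D) * ((12 * (n + 1) + 1) / (t ^ 2 * D) * N +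
        t ^ 2 * D * ((2 * K + Ccut n ^ 2 + 144 * Cfr n) / (t ^ 4 * D ^ 2) * N)) := by
        gcongr
    _ = Real.pi / 2 * C4 n K * t * N := by
        unfold C4
        field_simp
        ring

end Pool.Agent.NH67.VB
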