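import Pool.Agent.NH67.VB.Heat

/-! # Radially frozen test functions -/

set_option autoImplicit false

open MeasureTheory Metric Set Filter
open scoped ContDiff Gradient Topology ENNReal

namespace Pool.Agent.NH67.VB

variable {n : ℕ} {Ω : Set (Eu n)} {v : Eu n → ℝ} {z : Eu n}

theorem contDiff_one_of_smooth' {f : ℝ → ℝ} (h : ContDiff ℝ ∞ f) : ContDiff ℝ 1 f :=
  h.of_le (WithTop.coe_le_coe.mpr le_top)

/-- `log ‖x - z‖` -/
noncomputable def lg (z x : Eu n) : ℝ := 1 / 2 * Real.log (‖x - z‖ ^ 2)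

theorem lg_eq (z x : Eu n) : lg z x = Real.log ‖x - z‖ := by
  rw [lg, Real.log_pow]; push_cast; ring

theorem hasFDerivAt_lg {x : Eu n} (hx : x ≠ z) :
    HasFDerivAt (lg z) ((‖x - z‖ ^ 2)⁻¹ • innerSL ℝ (x - z)) x := by
  have hne : ‖x - z‖ ^ 2 ≠ 0 := by
    have : 0 < ‖x - z‖ := norm_pos_iff.2 (sub_ne_zero.2 hx)
    positivity
  have h1 : HasFDerivAt (fun y : Eu n => ‖y - z‖ ^ 2) (2 • (innerSL ℝ (x - z))) x := by
    have := ((hasFDerivAt_id x).sub_const z).norm_sq
    simpa using this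
  have h2 := (h1.log hne).const_mul (1 / 2)
  refine h2.congr_fderiv ?_
  ext v
  simp [innerSL_apply_apply]
  ring

theorem contDiffAt_lg {x : Eu n} (hx : x ≠ z) : ContDiffAt ℝ ∞ (lg z) x := by
  unfold lg
  have hne : ‖x - z‖ ^ 2 ≠ 0 := by
    have : 0 < ‖x - z‖ := norm_pos_iff.2 (sub_ne_zero.2 hx)
    positivity
  apply contDiffAt_const.mul
  apply ContDiffAt.log
  · exact ((contDiff_norm_sq ℝ).comp (contDiff_id.sub contDiff_const)).contDiffAt
  · exact hne

theorem measurable_lg (z : Eu n) : Measurable (lg z) := by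
  unfold lg
  fun_prop

/-- the dilation with centre `z` and factor `e^τ` -/
noncomputable def dil (z : Eu n) (τ : ℝ) (x : Eu n) : Eu n := z + Real.exp τ • (x - z)

theorem dil_sub (z : Eu n) (τ : ℝ) (x : Eu n) : dil z τ x - z = Real.exp τ • (x - z) := by
  simp [dil]

/-- the radially frozen test function -/
noncomputable def frz (z : Eu n) (v : Eu n → ℝ) (h : ℝ → ℝ) (σ : ℝ) (x : Eu n) : ℝ :=
  v (dil z (σ - lg z x) x) * h (σ - lg z x)

/-- the tangential energy density -/
noncomputable def tg (z : Eu n) (v : Eu n → ℝ) (y : Eu n) : ℝ :=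
  ‖∇ v y‖ ^ 2 - inner ℝ (∇ v y) (y - z) ^ 2 / ‖y - z‖ ^ 2

/-- the Hardy density -/
noncomputable def hd (z : Eu n) (v : Eu n → ℝ) (y : Eu n) : ℝ := v y ^ 2 / ‖y - z‖ ^ 2

theorem tg_nonneg (z : Eu n) (v : Eu n → ℝ) (y : Eu n) : 0 ≤ tg z v y := by
  unfold tg
  by_cases h : y - z = 0
  · rw [h]; simp
  have hp : 0 < ‖y - z‖ := norm_pos_iff.2 h
  have h1 := abs_real_inner_le_norm (∇ v y) (y - z)
  have h2 : inner ℝ (∇ v y) (y - z) ^ 2 ≤ (‖∇ v y‖ * ‖y - z‖) ^ 2 := by
    rw [← sq_abs]; exact pow_le_pow_left₀ (abs_nonneg _) h1 2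
  rw [sub_nonneg, div_le_iff₀ (by positivity)]
  calc _ ≤ _ := h2
    _ = _ := by ring

theorem hd_nonneg (z : Eu n) (v : Eu n → ℝ) (y : Eu n) : 0 ≤ hd z v y := by
  unfold hd; positivity

theorem norm_gradient_frz {h : ℝ → ℝ} (hv : Differentiable ℝ v) (hh : Differentiable ℝ h) (σ : ℝ)
    {x : Eu n} (hx : x ≠ z) :
    ‖∇ (frz z v h σ) x‖ ^ 2 = Real.exp (σ - lg z x) ^ 2 *
      (h (σ - lg z x) ^ 2 * tg z v (dil z (σ - lg z x) x) +
        (deriv h (σ - lg z x)) ^ 2 * hd z v (dil z (σ - lg z x) x)) := by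
  set q := x - z with hq
  have hq0 : q ≠ 0 := sub_ne_zero.2 hx
  have hqp : 0 < ‖q‖ := norm_pos_iff.2 hq0
  set τ := σ - lg z x with hτ
  set y := dil z τ x with hy
  set g := ∇ v y with hg
  set E := Real.exp τ with hE
  have hEp : 0 < E := Real.exp_pos _
  have hyz : y - z = E • q := dil_sub z τ x
  -- derivative of `τ`
  have dτ : HasFDerivAt (fun x => σ - lg z x) (-((‖q‖ ^ 2)⁻¹ • innerSL ℝ q)) x :=
    (hasFDerivAt_lg hx).const_sub σ
  have dh : HasFDerivAt (fun x => h (σ - lg z x)) (deriv h τ • (-((‖q‖ ^ 2)⁻¹ • innerSL ℝ q))) x :=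
    (hh τ).hasDerivAt.comp_hasFDerivAt x dτ
  have de : HasFDerivAt (fun x => Real.exp (σ - lg z x))
      (E • (-((‖q‖ ^ 2)⁻¹ • innerSL ℝ q))) x := dτ.exp
  have dd : HasFDerivAt (fun x => dil z (σ - lg z x) x)
      (E • (ContinuousLinearMap.id ℝ (Eu n)) +
        (E • (-((‖q‖ ^ 2)⁻¹ • innerSL ℝ q))).smulRight q) x := by
    have h1 : HasFDerivAt (fun x : Eu n => x - z) (ContinuousLinearMap.id ℝ (Eu n)) x :=
      (hasFDerivAt_id x).sub_const z
    exact (de.smul h1).const_add z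
  have dv : HasFDerivAt (fun x => v (dil z (σ - lg z x) x))
      ((fderiv ℝ v y).comp (E • (ContinuousLinearMap.id ℝ (Eu n)) +
        (E • (-((‖q‖ ^ 2)⁻¹ • innerSL ℝ q))).smulRight q)) x :=
    (hv y).hasFDerivAt.comp x dd
  have dg := dv.fun_mul dh
  set a := h τ * E with ha
  set b := v y * deriv h τ with hb
  have hgrad : HasGradientAt (frz z v h σ)
      (a • (g - ((‖q‖ ^ 2)⁻¹ * inner ℝ g q) • q) - (b * (‖q‖ ^ 2)⁻¹) • q) x := by
    rw [hasGradientAt_iff_hasFDerivAt]
    refine dg.congr_fderiv ?_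
    ext ξ
    have e1 : ∀ w, (fderiv ℝ v y) w = inner ℝ g w := fun w => (inner_gradient_left ..).symm
    simp only [add_apply, smul_apply, neg_apply, ContinuousLinearMap.comp_apply,
      ContinuousLinearMap.smulRight_apply, ContinuousLinearMap.id_apply, innerSL_apply_apply,
      smul_eq_mul, InnerProductSpace.toDual_apply_apply, e1, inner_add_right, inner_smul_right,
      inner_sub_left, inner_smul_left, conj_trivial, ← hτ, ← hy]
    rw [ha, hb]
    ring
  rw [hgrad.gradient]
  have hgq : inner ℝ g (y - z) ^ 2 / ‖y - z‖ ^ 2 = inner ℝ g q ^ 2 / ‖q‖ ^ 2 := by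
    rw [hyz, inner_smul_right, norm_smul, Real.norm_of_nonneg hEp.le, mul_pow, mul_pow]
    field_simp
  have hhd : hd z v y = v y ^ 2 / (E ^ 2 * ‖q‖ ^ 2) := by
    unfold hd
    rw [hyz, norm_smul, Real.norm_of_nonneg hEp.le, mul_pow]
  unfold tg
  rw [← hg, hgq, hhd]
  have hqq : inner ℝ q q = ‖q‖ ^ 2 := real_inner_self_eq_norm_sq q
  have hgg : inner ℝ g g = ‖g‖ ^ 2 := real_inner_self_eq_norm_sq g
  have hqg : inner ℝ q g = inner ℝ g q := real_inner_comm _ _
  rw [← real_inner_self_eq_norm_sq (a • (g - ((‖q‖ ^ 2)⁻¹ * inner ℝ g q) • q) -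
    (b * (‖q‖ ^ 2)⁻¹) • q)]
  simp only [inner_sub_left, inner_sub_right, inner_smul_left, inner_smul_right, conj_trivial,
    hqq, hgg, hqg]
  rw [ha, hb]
  field_simp
  ring

/-- the frozen function is a test function -/
theorem isTest_frz (hconv : Convex ℝ Ω) (hz : z ∈ Ω) (hv : IsTest Ω v) (hzv : z ∉ tsupport v)
    {h : ℝ → ℝ} {τ0 : ℝ} (hh : ContDiff ℝ ∞ h) (hsupp : ∀ τ, h τ ≠ 0 → 0 ≤ τ ∧ τ ≤ τ0) (σ : ℝ) :
    IsTest Ω (frz z v h σ) := by
  have hvz : v z = 0 := image_eq_zero_of_notMem_tsupport hzv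
  -- the compact set containing the support
  set K : Set (Eu n) := (fun p : ℝ × Eu n => z + Real.exp (-p.1) • (p.2 - z)) ''
    (Icc 0 τ0 ×ˢ tsupport v) with hK
  have hKc : IsCompact K := by
    apply (isCompact_Icc.prod hv.compact.isCompact).image
    fun_prop
  have hKΩ : K ⊆ Ω := by
    rintro _ ⟨⟨τ, y⟩, ⟨hτ, hy⟩, rfl⟩
    have hyΩ := hv.supp hy
    simp only
    have h1 : Real.exp (-τ) ≤ 1 := by rw [Real.exp_le_one_iff]; linarith [hτ.1]
    have h2 : 0 ≤ Real.exp (-τ) := (Real.exp_pos _).le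
    have := hconv hz hyΩ (sub_nonneg.2 h1) h2 (by ring)
    convert this using 1
    rw [smul_sub, sub_smul, one_smul]
    abel
  have hsub : Function.support (frz z v h σ) ⊆ K := by
    intro x hx
    rw [Function.mem_support, frz] at hx
    have h1 : v (dil z (σ - lg z x) x) ≠ 0 := left_ne_zero_of_mul hx
    have h2 : h (σ - lg z x) ≠ 0 := right_ne_zero_of_mul hx
    refine ⟨(σ - lg z x, dil z (σ - lg z x) x), ⟨hsupp _ h2, subset_tsupport _ h1⟩, ?_⟩
    simp only [dil_sub]
    rw [smul_smul, ← Real.exp_add, neg_add_cancel, Real.exp_zero, one_smul]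
    abel
  have hts : tsupport (frz z v h σ) ⊆ K := closure_minimal hsub hKc.isClosed
  refine ⟨?_, HasCompactSupport.of_support_subset_isCompact hKc hsub, hts.trans hKΩ⟩
  rw [contDiff_iff_contDiffAt]
  intro x
  by_cases hx : x = z
  · -- near `z` the function vanishes
    have hev : frz z v h σ =ᶠ[𝓝 x] fun _ => 0 := by
      have hball : ball z (Real.exp (σ - τ0 - 1)) ∈ 𝓝 x := by
        rw [hx]; exact ball_mem_nhds _ (Real.exp_pos _)
      filter_upwards [hball] with y hy
      by_cases hyz : y = z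
      · rw [frz, hyz]
        simp [dil, hvz]
      · have hp : 0 < ‖y - z‖ := norm_pos_iff.2 (sub_ne_zero.2 hyz)
        have h1 : ‖y - z‖ < Real.exp (σ - τ0 - 1) := by simpa [dist_eq_norm] using hy
        have h2 : lg z y < σ - τ0 - 1 := by
          rw [lg_eq]
          calc Real.log ‖y - z‖ < Real.log (Real.exp (σ - τ0 - 1)) := Real.log_lt_log hp h1
            _ = _ := Real.log_exp _
        have h3 : h (σ - lg z y) = 0 := by
          by_contra hne
          have := (hsupp _ hne).2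
          linarith
        rw [frz, h3, mul_zero]
    exact contDiffAt_const.congr_of_eventuallyEq hev
  · have h1 : ContDiffAt ℝ ∞ (fun y => σ - lg z y) x := contDiffAt_const.sub (contDiffAt_lg hx)
    have h2 : ContDiffAt ℝ ∞ (fun y => dil z (σ - lg z y) y) x := by
      unfold dil
      exact contDiffAt_const.add (h1.exp.smul (contDiffAt_id.sub contDiffAt_const))
    exact (hv.smooth.contDiffAt.comp x h2).mul (hh.contDiffAt.comp x h1)

/-- change of variables `σ = τ + log ‖x - z‖` -/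
theorem swap_log {F : ℝ → Eu n → ℝ≥0∞} (hF : Measurable (Function.uncurry F)) (z : Eu n) :
    ∫⁻ σ : ℝ, ∫⁻ x, F (σ - lg z x) x = ∫⁻ τ : ℝ, ∫⁻ x, F τ x := by
  have hm : Measurable (Function.uncurry fun (σ : ℝ) (x : Eu n) => F (σ - lg z x) x) := by
    have : Measurable fun p : ℝ × Eu n => ((p.1 - lg z p.2, p.2) : ℝ × Eu n) :=
      (measurable_fst.sub ((measurable_lg z).comp measurable_snd)).prodMk measurable_snd
    exact hF.comp this
  rw [lintegral_lintegral_swap hm.aemeasurable]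
  have h1 : ∀ x, ∫⁻ σ : ℝ, F (σ - lg z x) x = ∫⁻ τ : ℝ, F τ x := fun x =>
    lintegral_sub_right_eq_self (fun τ => F τ x) (lg z x)
  simp only [h1]
  rw [lintegral_lintegral_swap]
  have : Measurable fun p : Eu n × ℝ => ((p.2, p.1) : ℝ × Eu n) := measurable_swap
  exact (hF.comp this).aemeasurable

theorem lintegral_dil {f : Eu n → ℝ≥0∞} (hf : Measurable f) (z : Eu n) (τ : ℝ) :
    ∫⁻ x, f (dil z τ x) = ENNReal.ofReal (Real.exp (-(n * τ))) * ∫⁻ x, f x := by
  have hE : Real.exp τ ≠ 0 := (Real.exp_pos _).ne'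
  have h1 : ∫⁻ x, f (dil z τ x) = ∫⁻ x, f (z + Real.exp τ • x) := by
    have := lintegral_sub_right_eq_self (μ := (volume : Measure (Eu n)))
      (fun x => f (z + Real.exp τ • x)) z
    exact this
  have h2 : ∫⁻ x, f (z + Real.exp τ • x) =
      ∫⁻ y, f (z + y) ∂(Measure.map (fun x : Eu n => Real.exp τ • x) volume) := by
    rw [lintegral_map]
    · exact hf.comp (measurable_const.add measurable_id)
    · exact measurable_const_smul _
  have h3 : ∫⁻ y, f (z + y) = ∫⁻ y, f y := lintegral_add_left_eq_self f z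
  rw [h1, h2, Measure.map_addHaar_smul volume hE, lintegral_smul_measure, h3]
  congr 2
  rw [finrank_euclideanSpace_fin, abs_of_pos (by positivity), ← Real.exp_nat_mul,
    ← Real.exp_neg]

theorem measurable_dil (z : Eu n) (τ : ℝ) : Measurable fun x : Eu n => dil z τ x := by
  have : Continuous fun x : Eu n => dil z τ x := by unfold dil; fun_prop
  exact this.measurable

theorem lintegral_const_mul_dil {f : Eu n → ℝ≥0∞} (hf : Measurable f) (z : Eu n) (τ : ℝ)
    (c : ℝ≥0∞) : ∫⁻ x, c * f (dil z τ x) =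
      c * (ENNReal.ofReal (Real.exp (-(n * τ))) * ∫⁻ x, f x) := by
  have hm : Measurable fun x => f (dil z τ x) := hf.comp (measurable_dil z τ)
  rw [lintegral_const_mul _ hm, lintegral_dil hf]

theorem aux_ofReal {E a b c d : ℝ} (hE : 0 ≤ E) (ha : 0 ≤ a) (hb : 0 ≤ b) (hc : 0 ≤ c)
    (hd : 0 ≤ d) : ENNReal.ofReal (E * (a * c + b * d)) =
      ENNReal.ofReal (E * a) * ENNReal.ofReal c + ENNReal.ofReal (E * b) * ENNReal.ofReal d := by
  rw [← ENNReal.ofReal_mul (by positivity), ← ENNReal.ofReal_mul (by positivity),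
    ← ENNReal.ofReal_add (by positivity) (by positivity)]
  congr 1
  ring

/-- the main inequality: the radially frozen energy is almost an upper bound for the eigenvalue -/
theorem frozen_ineq (hn : 0 < n) (hconv : Convex ℝ Ω) (hz : z ∈ Ω) (hv : IsTest Ω v) (hzv : z ∉ tsupport v)
    {h : ℝ → ℝ} {τ0 : ℝ} (hh : ContDiff ℝ ∞ h) (hsupp : ∀ τ, h τ ≠ 0 → 0 ≤ τ ∧ τ ≤ τ0) :
    (∫⁻ τ : ℝ, ENNReal.ofReal (h τ ^ 2 * Real.exp (-(n * τ)))) *
        ENNReal.ofReal (lam1 Ω * ∫ x, v x ^ 2) ≤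
      (∫⁻ τ : ℝ, ENNReal.ofReal (Real.exp τ ^ 2 * h τ ^ 2 * Real.exp (-(n * τ)))) *
        (∫⁻ x, ENNReal.ofReal (tg z v x)) +
      (∫⁻ τ : ℝ, ENNReal.ofReal (Real.exp τ ^ 2 * deriv h τ ^ 2 * Real.exp (-(n * τ)))) *
        (∫⁻ x, ENNReal.ofReal (hd z v x)) := by
  have hvz : v z = 0 := image_eq_zero_of_notMem_tsupport hzv
  have hhd : Differentiable ℝ h := hh.differentiable (by simp)
  have hhc : Continuous h := hh.continuous
  have hhdc : Continuous (deriv h) := (contDiff_one_of_smooth' hh).continuous_deriv (by norm_num)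
  have hvc := hv.continuous
  have hvg := hv.continuous_gradient
  have hlam := lam1_nonneg Ω
  have htgm : Measurable (tg z v) := by
    unfold tg
    exact (hvg.norm.pow 2).measurable.sub
      (((hvg.inner (continuous_id.sub continuous_const)).pow 2).measurable.div
        ((continuous_id.sub continuous_const).norm.pow 2).measurable)
  have hhdm : Measurable (hd z v) := by
    unfold hd
    exact (hvc.pow 2).measurable.div ((continuous_id.sub continuous_const).norm.pow 2).measurable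
  -- the two functions
  set F1 : ℝ → Eu n → ℝ≥0∞ := fun τ x =>
    ENNReal.ofReal (h τ ^ 2) * ENNReal.ofReal (lam1 Ω * v (dil z τ x) ^ 2) with hF1
  set F2 : ℝ → Eu n → ℝ≥0∞ := fun τ x =>
    ENNReal.ofReal (Real.exp τ ^ 2 * h τ ^ 2) * ENNReal.ofReal (tg z v (dil z τ x)) +
      ENNReal.ofReal (Real.exp τ ^ 2 * deriv h τ ^ 2) *
        ENNReal.ofReal (hd z v (dil z τ x)) with hF2
  have hdil : Measurable fun p : ℝ × Eu n => dil z p.1 p.2 := by
    have : Continuous fun p : ℝ × Eu n => dil z p.1 p.2 := by unfold dil; fun_prop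
    exact this.measurable
  have hdil2 : ∀ τ, Measurable fun x : Eu n => dil z τ x := by
    intro τ
    have : Continuous fun x : Eu n => dil z τ x := by unfold dil; fun_prop
    exact this.measurable
  have hF1m : Measurable (Function.uncurry F1) := by
    change Measurable fun p : ℝ × Eu n =>
      ENNReal.ofReal (h p.1 ^ 2) * ENNReal.ofReal (lam1 Ω * v (dil z p.1 p.2) ^ 2)
    apply Measurable.fun_mul
    · exact ((hhc.comp continuous_fst).pow 2).measurable.ennreal_ofReal
    · exact (measurable_const.mul ((hvc.measurable.comp hdil).pow_const 2)).ennreal_ofReal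
  have hF2m : Measurable (Function.uncurry F2) := by
    change Measurable fun p : ℝ × Eu n =>
      ENNReal.ofReal (Real.exp p.1 ^ 2 * h p.1 ^ 2) * ENNReal.ofReal (tg z v (dil z p.1 p.2)) +
        ENNReal.ofReal (Real.exp p.1 ^ 2 * deriv h p.1 ^ 2) *
          ENNReal.ofReal (hd z v (dil z p.1 p.2))
    apply Measurable.fun_add
    · apply Measurable.fun_mul
      · exact (((Real.continuous_exp.comp continuous_fst).pow 2).mul
          ((hhc.comp continuous_fst).pow 2)).measurable.ennreal_ofReal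
      · exact (htgm.comp hdil).ennreal_ofReal
    · apply Measurable.fun_mul
      · exact (((Real.continuous_exp.comp continuous_fst).pow 2).mul
          ((hhdc.comp continuous_fst).pow 2)).measurable.ennreal_ofReal
      · exact (hhdm.comp hdil).ennreal_ofReal
  -- Rayleigh for each `σ`
  have hray : ∀ σ : ℝ, ∫⁻ x, F1 (σ - lg z x) x ≤ ∫⁻ x, F2 (σ - lg z x) x := by
    intro σ
    have ht := isTest_frz hconv hz hv hzv hh hsupp σ
    have hr := rayleigh ht
    have hi1 : Integrable (fun x => lam1 Ω * frz z v h σ x ^ 2) volume :=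
      ht.integrable_sq.const_mul _
    have hi2 : Integrable (fun x => ‖∇ (frz z v h σ) x‖ ^ 2) volume := ht.integrable_gradient_sq
    have e1 : ∫⁻ x, F1 (σ - lg z x) x = ENNReal.ofReal (lam1 Ω * ∫ x, frz z v h σ x ^ 2) := by
      rw [← integral_const_mul, ofReal_integral_eq_lintegral_ofReal hi1
        (ae_of_all _ fun x => by positivity)]
      apply lintegral_congr
      intro x
      simp only [hF1]
      rw [← ENNReal.ofReal_mul (sq_nonneg _)]
      congr 1
      unfold frz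
      ring
    have e2 : ENNReal.ofReal (∫ x, ‖∇ (frz z v h σ) x‖ ^ 2) = ∫⁻ x, F2 (σ - lg z x) x := by
      rw [ofReal_integral_eq_lintegral_ofReal hi2 (ae_of_all _ fun x => by positivity)]
      apply lintegral_congr_ae
      have hne : ∀ᵐ x : Eu n, x ≠ z := by
        have : Nonempty (Fin n) := ⟨⟨0, hn⟩⟩
        have : Nontrivial (Eu n) := inferInstance
        filter_upwards [compl_mem_ae_iff.2 (measure_singleton z)] with x hx using hx
      filter_upwards [hne] with x hx
      rw [norm_gradient_frz hv.differentiable hhd σ hx]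
      exact aux_ofReal (by positivity) (by positivity) (by positivity) (tg_nonneg _ _ _)
        (hd_nonneg _ _ _)
    rw [e1, ← e2]
    exact ENNReal.ofReal_le_ofReal hr
  have hint : ∫⁻ σ : ℝ, ∫⁻ x, F1 (σ - lg z x) x ≤ ∫⁻ σ : ℝ, ∫⁻ x, F2 (σ - lg z x) x :=
    lintegral_mono hray
  rw [swap_log hF1m, swap_log hF2m] at hint
  have hiv : Integrable (fun x => lam1 Ω * v x ^ 2) volume := hv.integrable_sq.const_mul _
  have e1 : ∀ τ : ℝ, ∫⁻ x, F1 τ x = ENNReal.ofReal (h τ ^ 2 * Real.exp (-(n * τ))) *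
      ENNReal.ofReal (lam1 Ω * ∫ x, v x ^ 2) := by
    intro τ
    simp only [hF1]
    have hm : Measurable fun x => ENNReal.ofReal (lam1 Ω * v x ^ 2) :=
      (measurable_const.mul (hvc.measurable.pow_const 2)).ennreal_ofReal
    rw [lintegral_const_mul_dil hm, ← integral_const_mul,
      ofReal_integral_eq_lintegral_ofReal hiv (ae_of_all _ fun x => by positivity),
      ENNReal.ofReal_mul (sq_nonneg _), mul_assoc]
  have e2 : ∀ τ : ℝ, ∫⁻ x, F2 τ x =
      ENNReal.ofReal (Real.exp τ ^ 2 * h τ ^ 2 * Real.exp (-(n * τ))) *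
        (∫⁻ x, ENNReal.ofReal (tg z v x)) +
      ENNReal.ofReal (Real.exp τ ^ 2 * deriv h τ ^ 2 * Real.exp (-(n * τ))) *
        (∫⁻ x, ENNReal.ofReal (hd z v x)) := by
    intro τ
    simp only [hF2]
    have hm1 : Measurable fun x => ENNReal.ofReal (tg z v x) := htgm.ennreal_ofReal
    have hm2 : Measurable fun x => ENNReal.ofReal (hd z v x) := hhdm.ennreal_ofReal
    have hm3 : Measurable fun x => ENNReal.ofReal (Real.exp τ ^ 2 * h τ ^ 2) *
        ENNReal.ofReal (tg z v (dil z τ x)) := (hm1.comp (hdil2 τ)).const_mul _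
    rw [lintegral_add_left hm3, lintegral_const_mul_dil hm1, lintegral_const_mul_dil hm2,
      ENNReal.ofReal_mul (p := Real.exp τ ^ 2 * h τ ^ 2) (by positivity),
      ENNReal.ofReal_mul (p := Real.exp τ ^ 2 * deriv h τ ^ 2) (by positivity),
      mul_assoc, mul_assoc]
  simp only [e1, e2] at hint
  have hexp : Continuous fun τ : ℝ => Real.exp (-(n * τ)) := by fun_prop
  have hm1 : Measurable fun τ : ℝ => ENNReal.ofReal (h τ ^ 2 * Real.exp (-(n * τ))) :=
    ((hhc.pow 2).mul hexp).measurable.ennreal_ofReal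
  have hm2 : Measurable fun τ : ℝ =>
      ENNReal.ofReal (Real.exp τ ^ 2 * h τ ^ 2 * Real.exp (-(n * τ))) :=
    (((Real.continuous_exp.pow 2).mul (hhc.pow 2)).mul hexp).measurable.ennreal_ofReal
  have hm3 : Measurable fun τ : ℝ =>
      ENNReal.ofReal (Real.exp τ ^ 2 * deriv h τ ^ 2 * Real.exp (-(n * τ))) :=
    (((Real.continuous_exp.pow 2).mul (hhdc.pow 2)).mul hexp).measurable.ennreal_ofReal
  rw [lintegral_mul_const _ hm1, lintegral_add_left (hm2.mul_const _),
    lintegral_mul_const _ hm2, lintegral_mul_const _ hm3] at hint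
  exact hint

end Pool.Agent.NH67.VB
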