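import Pool.Agent.NH67.VB.Radial

/-! # Radially frozen test functions: the real inequality -/

set_option autoImplicit false

open MeasureTheory Metric Set Filter
open scoped ContDiff Gradient Topology ENNReal

namespace Pool.Agent.NH67.VB

variable {n : ℕ} {Ω : Set (Eu n)} {v : Eu n → ℝ} {z : Eu n}

/-- the profile -/
noncomputable def H0 : ContDiffBump (1 / 2 : ℝ) := ⟨1 / 8, 1 / 4, by norm_num, by norm_num⟩

theorem H0_smooth : ContDiff ℝ ∞ (H0 : ℝ → ℝ) := H0.contDiff

theorem H0_ne {τ : ℝ} (h : H0 τ ≠ 0) : 0 ≤ τ ∧ τ ≤ 1 := by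
  have h1 : τ ∈ Function.support H0 := h
  rw [H0.support_eq] at h1
  have h2 : |τ - 1 / 2| < 1 / 4 := by simpa [Real.dist_eq, H0] using h1
  have h3 := abs_lt.1 h2
  constructor <;> linarith [h3.1, h3.2]

/-- `∫ H0²` -/
noncomputable def I0 : ℝ := ∫ τ, H0 τ ^ 2
/-- `∫ H0'²` -/
noncomputable def I1 : ℝ := ∫ τ, deriv H0 τ ^ 2

theorem H0_sq_integrable : Integrable (fun τ => H0 τ ^ 2) volume := by
  have hc : Continuous fun τ => H0 τ ^ 2 := H0.continuous.pow 2
  refine hc.integrable_of_hasCompactSupport (HasCompactSupport.intro H0.hasCompactSupport ?_)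
  intro x hx
  rw [image_eq_zero_of_notMem_tsupport hx]; simp

theorem H0_deriv_continuous : Continuous (deriv H0) :=
  (contDiff_one_of_smooth' H0_smooth).continuous_deriv (by norm_num)

theorem H0_deriv_sq_integrable : Integrable (fun τ => deriv H0 τ ^ 2) volume := by
  have hc : Continuous fun τ => deriv H0 τ ^ 2 := H0_deriv_continuous.pow 2
  refine hc.integrable_of_hasCompactSupport (HasCompactSupport.intro H0.hasCompactSupport ?_)
  intro x hx
  have : deriv H0 x = 0 := by
    have h1 : x ∉ tsupport (deriv H0) := fun h => hx (tsupport_deriv_subset h)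
    exact image_eq_zero_of_notMem_tsupport h1
  rw [this]; simp

theorem I0_pos : 0 < I0 := by
  unfold I0
  rw [integral_pos_iff_support_of_nonneg (fun x => sq_nonneg _) H0_sq_integrable]
  have hsupp : Function.support (fun τ => H0 τ ^ 2) = ball (1 / 2 : ℝ) (1 / 4) := by
    ext x
    rw [Function.mem_support, ne_eq, pow_eq_zero_iff (by norm_num), ← ne_eq,
      ← Function.mem_support, H0.support_eq]
    rfl
  rw [hsupp]
  exact measure_ball_pos _ _ (by norm_num)

theorem I1_nonneg : 0 ≤ I1 := integral_nonneg fun _ => sq_nonneg _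

/-- the scaled profile -/
noncomputable def hh (τ0 : ℝ) (τ : ℝ) : ℝ := H0 (τ / τ0)

theorem hh_smooth (τ0 : ℝ) : ContDiff ℝ ∞ (hh τ0) :=
  H0_smooth.comp (contDiff_id.div_const _)

theorem hh_ne {τ0 τ : ℝ} (h0 : 0 < τ0) (h : hh τ0 τ ≠ 0) : 0 ≤ τ ∧ τ ≤ τ0 := by
  have h1 := H0_ne h
  constructor
  · have := mul_nonneg h1.1 h0.le
    rwa [div_mul_cancel₀ _ h0.ne'] at this
  · have := h1.2
    rwa [div_le_one h0] at this

theorem deriv_hh (τ0 τ : ℝ) : deriv (hh τ0) τ = deriv H0 (τ / τ0) / τ0 := by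
  have h1 : HasDerivAt (fun τ : ℝ => τ / τ0) (1 / τ0) τ := (hasDerivAt_id τ).div_const τ0
  have h2 : HasDerivAt H0 (deriv H0 (τ / τ0)) (τ / τ0) :=
    ((H0_smooth.differentiable (by simp)) _).hasDerivAt
  have h3 := h2.comp τ h1
  have : hh τ0 = H0 ∘ fun τ => τ / τ0 := rfl
  rw [this, h3.deriv]
  ring

theorem deriv_hh_ne {τ0 τ : ℝ} (h0 : 0 < τ0) (h : deriv (hh τ0) τ ≠ 0) : 0 ≤ τ ∧ τ ≤ τ0 := by
  rw [deriv_hh] at h
  have h1 : deriv H0 (τ / τ0) ≠ 0 := fun h' => h (by rw [h', zero_div])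
  have h2 : τ / τ0 ∈ tsupport H0 := tsupport_deriv_subset (subset_tsupport _ h1)
  rw [H0.tsupport_eq] at h2
  have h3 : |τ / τ0 - 1 / 2| ≤ 1 / 4 := by simpa [Real.dist_eq, H0] using h2
  have h4 := abs_le.1 h3
  constructor
  · have : 0 ≤ τ / τ0 := by linarith [h4.1]
    have := mul_nonneg this h0.le
    rwa [div_mul_cancel₀ _ h0.ne'] at this
  · have : τ / τ0 ≤ 1 := by linarith [h4.2]
    rwa [div_le_one h0] at this

theorem lint_hh {τ0 : ℝ} (h0 : 0 < τ0) :
    ∫⁻ τ, ENNReal.ofReal (hh τ0 τ ^ 2) = ENNReal.ofReal (τ0 * I0) := by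
  have hi : Integrable (fun τ => hh τ0 τ ^ 2) volume :=
    H0_sq_integrable.comp_div h0.ne'
  rw [← ofReal_integral_eq_lintegral_ofReal hi (ae_of_all _ fun _ => sq_nonneg _)]
  congr 1
  have := Measure.integral_comp_div (fun τ => H0 τ ^ 2) τ0
  rw [smul_eq_mul, abs_of_pos h0] at this
  exact this

theorem lint_deriv_hh {τ0 : ℝ} (h0 : 0 < τ0) :
    ∫⁻ τ, ENNReal.ofReal (deriv (hh τ0) τ ^ 2) = ENNReal.ofReal (I1 / τ0) := by
  have e : ∀ τ, deriv (hh τ0) τ ^ 2 = (τ0 ^ 2)⁻¹ * (fun τ => deriv H0 τ ^ 2) (τ / τ0) := by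
    intro τ; rw [deriv_hh]; field_simp
  simp only [e]
  have hi : Integrable (fun τ => (τ0 ^ 2)⁻¹ * (fun τ => deriv H0 τ ^ 2) (τ / τ0)) volume :=
    (H0_deriv_sq_integrable.comp_div h0.ne').const_mul _
  rw [← ofReal_integral_eq_lintegral_ofReal hi (ae_of_all _ fun _ => by positivity)]
  congr 1
  have := Measure.integral_comp_div (fun τ => deriv H0 τ ^ 2) τ0
  rw [smul_eq_mul, abs_of_pos h0] at this
  rw [integral_const_mul, this]
  unfold I1
  field_simp

/-- the constant of the frozen inequality -/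
noncomputable def Cfr (n : ℕ) : ℝ := Real.exp (2 + n) * I1 / I0

theorem Cfr_nonneg (n : ℕ) : 0 ≤ Cfr n := by
  unfold Cfr
  have := I0_pos
  have := I1_nonneg
  positivity

theorem tg_integrable (hv : IsTest Ω v) (z : Eu n) : Integrable (tg z v) volume := by
  have hvg := hv.continuous_gradient
  have htgm : Measurable (tg z v) := by
    unfold tg
    exact (hvg.norm.pow 2).measurable.sub
      (((hvg.inner (continuous_id.sub continuous_const)).pow 2).measurable.div
        ((continuous_id.sub continuous_const).norm.pow 2).measurable)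
  refine hv.integrable_gradient_sq.mono' htgm.aestronglyMeasurable ?_
  apply ae_of_all
  intro x
  rw [Real.norm_of_nonneg (tg_nonneg z v x)]
  unfold tg
  have : 0 ≤ inner ℝ (∇ v x) (x - z) ^ 2 / ‖x - z‖ ^ 2 := by positivity
  linarith

/-- a test function vanishing near `z` vanishes on a ball -/
theorem exists_ball_zero (hzv : z ∉ tsupport v) : ∃ δ : ℝ, 0 < δ ∧ ∀ x, ‖x - z‖ < δ → v x = 0 := by
  have h1 : (tsupport v)ᶜ ∈ 𝓝 z := (isClosed_tsupport v).isOpen_compl.mem_nhds hzv
  obtain ⟨δ, hδ, hb⟩ := Metric.mem_nhds_iff.1 h1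
  refine ⟨δ, hδ, fun x hx => ?_⟩
  have : x ∈ ball z δ := by simpa [dist_eq_norm] using hx
  exact image_eq_zero_of_notMem_tsupport (hb this)

theorem hd_integrable (hv : IsTest Ω v) (hzv : z ∉ tsupport v) :
    Integrable (hd z v) volume := by
  obtain ⟨δ, hδ, hb⟩ := exists_ball_zero hzv
  have hhdm : Measurable (hd z v) := by
    unfold hd
    exact (hv.continuous.pow 2).measurable.div
      ((continuous_id.sub continuous_const).norm.pow 2).measurable
  refine (hv.integrable_sq.const_mul ((δ ^ 2)⁻¹)).mono' hhdm.aestronglyMeasurable ?_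
  apply ae_of_all
  intro x
  rw [Real.norm_of_nonneg (hd_nonneg z v x)]
  unfold hd
  by_cases hx : ‖x - z‖ < δ
  · rw [hb x hx]; simp
  · push Not at hx
    rw [div_eq_inv_mul]
    gcongr

/-- **the frozen inequality** -/
theorem frozen_real (hn : 0 < n) (hconv : Convex ℝ Ω) (hz : z ∈ Ω) (hv : IsTest Ω v)
    (hzv : z ∉ tsupport v) {τ0 : ℝ} (h0 : 0 < τ0) (h1 : τ0 ≤ 1) :
    lam1 Ω * ∫ x, v x ^ 2 ≤
      Real.exp (2 * τ0) * (∫ x, tg z v x) + Cfr n / τ0 ^ 2 * ∫ x, hd z v x := by
  have hI0 := I0_pos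
  have hI1 := I1_nonneg
  have hlam := lam1_nonneg Ω
  have hfi := frozen_ineq hn hconv hz hv hzv (hh_smooth τ0) (fun τ hτ => hh_ne h0 hτ)
  set c0 : ℝ≥0∞ := ∫⁻ τ : ℝ, ENNReal.ofReal (hh τ0 τ ^ 2 * Real.exp (-(n * τ))) with hc0
  have hexpm : ∀ τ : ℝ, 0 ≤ τ → τ ≤ τ0 → Real.exp (-(n : ℝ)) ≤ Real.exp (-(n * τ)) ∧
      Real.exp (-(n * τ)) ≤ 1 := by
    intro τ hτ hτ2
    constructor
    · apply Real.exp_le_exp.2
      have : (n : ℝ) * τ ≤ n * 1 := by gcongr; linarith
      linarith
    · rw [Real.exp_le_one_iff]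
      have : 0 ≤ (n : ℝ) * τ := by positivity
      linarith
  -- lower bound for `c0`
  have hc0low : ENNReal.ofReal (Real.exp (-(n : ℝ)) * (τ0 * I0)) ≤ c0 := by
    rw [ENNReal.ofReal_mul (by positivity), ← lint_hh h0, ← lintegral_const_mul]
    · apply lintegral_mono
      intro τ
      simp only
      rw [← ENNReal.ofReal_mul (by positivity)]
      apply ENNReal.ofReal_le_ofReal
      by_cases hτ : hh τ0 τ = 0
      · rw [hτ]; simp
      · have := hh_ne h0 hτ
        have h2 := (hexpm τ this.1 this.2).1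
        have h3 := sq_nonneg (hh τ0 τ)
        nlinarith
    · exact ((hh_smooth τ0).continuous.pow 2).measurable.ennreal_ofReal
  have hc0pos : c0 ≠ 0 := by
    have : 0 < ENNReal.ofReal (Real.exp (-(n : ℝ)) * (τ0 * I0)) := by
      rw [ENNReal.ofReal_pos]; positivity
    exact (this.trans_le hc0low).ne'
  have hc0fin : c0 ≠ ⊤ := by
    have : c0 ≤ ENNReal.ofReal (τ0 * I0) := by
      rw [← lint_hh h0]
      apply lintegral_mono
      intro τ
      apply ENNReal.ofReal_le_ofReal
      by_cases hτ : hh τ0 τ = 0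
      · rw [hτ]; simp
      · have := hh_ne h0 hτ
        have h2 := (hexpm τ this.1 this.2).2
        have h3 := sq_nonneg (hh τ0 τ)
        nlinarith
    exact (this.trans_lt ENNReal.ofReal_lt_top).ne
  -- the coefficient of the tangential energy
  have hc1 : ∫⁻ τ : ℝ, ENNReal.ofReal (Real.exp τ ^ 2 * hh τ0 τ ^ 2 * Real.exp (-(n * τ))) ≤
      c0 * ENNReal.ofReal (Real.exp (2 * τ0)) := by
    rw [mul_comm, hc0, ← lintegral_const_mul]
    · apply lintegral_mono
      intro τ
      simp only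
      rw [← ENNReal.ofReal_mul (by positivity)]
      apply ENNReal.ofReal_le_ofReal
      by_cases hτ : hh τ0 τ = 0
      · rw [hτ]; simp
      · have := hh_ne h0 hτ
        have h2 : Real.exp τ ^ 2 ≤ Real.exp (2 * τ0) := by
          rw [← Real.exp_nat_mul]
          apply Real.exp_le_exp.2
          push_cast
          linarith
        have h3 : 0 ≤ hh τ0 τ ^ 2 * Real.exp (-(n * τ)) := by positivity
        nlinarith
    · exact (((hh_smooth τ0).continuous.pow 2).mul (by fun_prop)).measurable.ennreal_ofReal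
  have hc2 : ∫⁻ τ : ℝ, ENNReal.ofReal (Real.exp τ ^ 2 * deriv (hh τ0) τ ^ 2 *
      Real.exp (-(n * τ))) ≤ c0 * ENNReal.ofReal (Cfr n / τ0 ^ 2) := by
    calc ∫⁻ τ : ℝ, ENNReal.ofReal (Real.exp τ ^ 2 * deriv (hh τ0) τ ^ 2 * Real.exp (-(n * τ)))
        ≤ ∫⁻ τ : ℝ, ENNReal.ofReal (Real.exp 2) * ENNReal.ofReal (deriv (hh τ0) τ ^ 2) := by
          apply lintegral_mono
          intro τ
          simp only
          rw [← ENNReal.ofReal_mul (by positivity)]
          apply ENNReal.ofReal_le_ofReal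
          by_cases hτ : deriv (hh τ0) τ = 0
          · rw [hτ]; simp
          · have := deriv_hh_ne h0 hτ
            have h2 : Real.exp τ ^ 2 ≤ Real.exp 2 := by
              rw [← Real.exp_nat_mul]
              apply Real.exp_le_exp.2
              push_cast
              linarith
            have h4 := (hexpm τ this.1 this.2).2
            have h5 : 0 < Real.exp (-(n * τ)) := Real.exp_pos _
            calc Real.exp τ ^ 2 * deriv (hh τ0) τ ^ 2 * Real.exp (-(n * τ))
                ≤ Real.exp 2 * deriv (hh τ0) τ ^ 2 * 1 := by gcongr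
              _ = _ := mul_one _
      _ = ENNReal.ofReal (Real.exp 2 * (I1 / τ0)) := by
          rw [lintegral_const_mul, lint_deriv_hh h0, ← ENNReal.ofReal_mul (by positivity)]
          exact (((contDiff_one_of_smooth' (hh_smooth τ0)).continuous_deriv
            (by norm_num)).pow 2).measurable.ennreal_ofReal
      _ = ENNReal.ofReal (Real.exp (-(n : ℝ)) * (τ0 * I0)) * ENNReal.ofReal (Cfr n / τ0 ^ 2) := by
          rw [← ENNReal.ofReal_mul (by positivity)]
          congr 1
          unfold Cfr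
          rw [Real.exp_add, Real.exp_neg]
          field_simp
      _ ≤ c0 * ENNReal.ofReal (Cfr n / τ0 ^ 2) := by gcongr
  have htg : ∫⁻ x, ENNReal.ofReal (tg z v x) = ENNReal.ofReal (∫ x, tg z v x) :=
    (ofReal_integral_eq_lintegral_ofReal (tg_integrable hv z)
      (ae_of_all _ fun x => tg_nonneg z v x)).symm
  have hhd : ∫⁻ x, ENNReal.ofReal (hd z v x) = ENNReal.ofReal (∫ x, hd z v x) :=
    (ofReal_integral_eq_lintegral_ofReal (hd_integrable hv hzv)
      (ae_of_all _ fun x => hd_nonneg z v x)).symm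
  rw [htg, hhd] at hfi
  have htg0 : 0 ≤ ∫ x, tg z v x := integral_nonneg fun x => tg_nonneg z v x
  have hhd0 : 0 ≤ ∫ x, hd z v x := integral_nonneg fun x => hd_nonneg z v x
  have hC := Cfr_nonneg n
  have hfin : c0 * ENNReal.ofReal (lam1 Ω * ∫ x, v x ^ 2) ≤
      c0 * ENNReal.ofReal (Real.exp (2 * τ0) * (∫ x, tg z v x) +
        Cfr n / τ0 ^ 2 * ∫ x, hd z v x) := by
    refine hfi.trans ?_
    rw [ENNReal.ofReal_add (by positivity) (by positivity), ENNReal.ofReal_mul (by positivity),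
      ENNReal.ofReal_mul (by positivity), mul_add, ← mul_assoc, ← mul_assoc]
    gcongr
  have h5 := (ENNReal.mul_le_mul_iff_right hc0pos hc0fin).1 hfin
  exact (ENNReal.ofReal_le_ofReal_iff (by positivity)).1 h5

end Pool.Agent.NH67.VB
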