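import Pool.Agent.NH67.VB.Radial2

/-! # Mass in spherical shells -/

set_option autoImplicit false

open MeasureTheory Metric Set Filter
open scoped ContDiff Gradient Topology ENNReal

namespace Pool.Agent.NH67.VB

variable {n : ℕ} {Ω : Set (Eu n)} {v : Eu n → ℝ} {z : Eu n}

/-- the radial energy density -/
noncomputable def rd (z : Eu n) (v : Eu n → ℝ) (y : Eu n) : ℝ :=
  inner ℝ (∇ v y) (y - z) ^ 2 / ‖y - z‖ ^ 2

theorem rd_nonneg (z : Eu n) (v : Eu n → ℝ) (y : Eu n) : 0 ≤ rd z v y := by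
  unfold rd; positivity

theorem tg_eq (z : Eu n) (v : Eu n → ℝ) (y : Eu n) : tg z v y = ‖∇ v y‖ ^ 2 - rd z v y := rfl

theorem rd_integrable (hv : IsTest Ω v) (z : Eu n) : Integrable (rd z v) volume := by
  have h := hv.integrable_gradient_sq.sub (tg_integrable hv z)
  refine h.congr (ae_of_all _ fun x => ?_)
  simp [tg_eq]

theorem hasFDerivAt_norm_sub {x : Eu n} (hx : x ≠ z) :
    HasFDerivAt (fun y : Eu n => ‖y - z‖) ((‖x - z‖)⁻¹ • innerSL ℝ (x - z)) x := by
  have hp : 0 < ‖x - z‖ := norm_pos_iff.2 (sub_ne_zero.2 hx)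
  have h1 : HasFDerivAt (fun y : Eu n => ‖y - z‖ ^ 2) (2 • (innerSL ℝ (x - z))) x := by
    have := ((hasFDerivAt_id x).sub_const z).norm_sq
    simpa using this
  have h2 := h1.sqrt (by positivity)
  have e : (fun y : Eu n => Real.sqrt (‖y - z‖ ^ 2)) = fun y => ‖y - z‖ := by
    funext y; exact Real.sqrt_sq (norm_nonneg _)
  rw [e] at h2
  refine h2.congr_fderiv ?_
  rw [Real.sqrt_sq (norm_nonneg _)]
  ext w
  simp [innerSL_apply_apply]
  field_simp

/-- the profile `r ↦ A(r) / r` -/
noncomputable def Bf (ρ R r : ℝ) : ℝ := ρ * Real.arctan ((r - R) / ρ) / r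

theorem hasDerivAt_Bf {ρ R r : ℝ} (hρ : 0 < ρ) (hr : 0 < r) :
    HasDerivAt (Bf ρ R) (1 / (1 + ((r - R) / ρ) ^ 2) / r - Bf ρ R r / r) r := by
  have h1 : HasDerivAt (fun r : ℝ => (r - R) / ρ) (1 / ρ) r :=
    ((hasDerivAt_id r).sub_const R).div_const ρ
  have h2 := (h1.arctan).const_mul ρ
  have h3 := h2.div (hasDerivAt_id r) hr.ne'
  refine h3.congr_deriv ?_
  have hpos : 0 < 1 + ((r - R) / ρ) ^ 2 := by positivity
  unfold Bf
  simp only [id]
  field_simp

theorem abs_Bf_le {ρ R r : ℝ} (hρ : 0 < ρ) (hr : 0 ≤ r) : |Bf ρ R r| ≤ Real.pi / 2 * ρ / r := by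
  unfold Bf
  rw [abs_div, abs_mul, abs_of_pos hρ, abs_of_nonneg hr]
  have h1 := Real.arctan_lt_pi_div_two ((r - R) / ρ)
  have h2 := Real.neg_pi_div_two_lt_arctan ((r - R) / ρ)
  have h3 : |Real.arctan ((r - R) / ρ)| ≤ Real.pi / 2 := abs_le.2 ⟨by linarith, h1.le⟩
  calc ρ * |Real.arctan ((r - R) / ρ)| / r ≤ ρ * (Real.pi / 2) / r := by gcongr
    _ = Real.pi / 2 * ρ / r := by ring

/-- the shell inequality -/
theorem slab (hv : IsTest Ω v) (hzv : z ∉ tsupport v) {ρ : ℝ} (hρ : 0 < ρ) (R : ℝ) {s : ℝ}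
    (hs : 0 < s) :
    ∫ x, v x ^ 2 / (1 + ((‖x - z‖ - R) / ρ) ^ 2) ≤
      Real.pi / 2 * ρ * ((n + 1) * (∫ x, v x ^ 2 / ‖x - z‖) + s * (∫ x, v x ^ 2) +
        1 / s * ∫ x, rd z v x) := by
  obtain ⟨δ, hδ, hb⟩ := exists_ball_zero hzv
  have hvz : v z = 0 := image_eq_zero_of_notMem_tsupport hzv
  have hgz : ∇ v z = 0 := gradient_eq_zero_of_notMem_tsupport hzv
  set f : Eu n → ℝ := fun x => Bf ρ R ‖x - z‖ * (v x * v x) with hf
  have hBd : ContDiffOn ℝ 1 (Bf ρ R) (Ioi 0) := by
    unfold Bf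
    apply ContDiffOn.div
    · exact (contDiff_const.mul (Real.contDiff_arctan.comp
        ((contDiff_id.sub contDiff_const).div_const _))).contDiffOn
    · exact contDiff_id.contDiffOn
    · intro x hx; exact (ne_of_gt hx)
  have hfC : ContDiff ℝ 1 f := by
    rw [contDiff_iff_contDiffAt]
    intro x
    by_cases hx : x = z
    · have hev : f =ᶠ[𝓝 x] fun _ => 0 := by
        rw [hx]
        filter_upwards [ball_mem_nhds z hδ] with y hy
        have : ‖y - z‖ < δ := by simpa [dist_eq_norm] using hy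
        simp [hf, hb y this]
      exact contDiffAt_const.congr_of_eventuallyEq hev
    · have hp : 0 < ‖x - z‖ := norm_pos_iff.2 (sub_ne_zero.2 hx)
      have h1 : ContDiffAt ℝ 1 (fun y : Eu n => ‖y - z‖) x :=
        (contDiffAt_id.sub contDiffAt_const).norm ℝ (sub_ne_zero.2 hx)
      have hB1 : ContDiffAt ℝ 1 (Bf ρ R) ‖x - z‖ := hBd.contDiffAt (Ioi_mem_nhds hp)
      have h2 : ContDiffAt ℝ 1 (fun y : Eu n => Bf ρ R ‖y - z‖) x :=
        ContDiffAt.comp (f := fun y : Eu n => ‖y - z‖) (g := Bf ρ R) x hB1 h1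
      have h3 := (contDiff_one_of_smooth hv.smooth).contDiffAt (x := x)
      exact h2.mul (h3.mul h3)
  have hfc : HasCompactSupport f := by
    apply HasCompactSupport.intro hv.compact
    intro x hx
    simp [hf, image_eq_zero_of_notMem_tsupport hx]
  have he := euler hfC hfc z
  -- the pointwise identity
  have hpt : ∀ x, n * f x + inner ℝ (∇ f x) (x - z) =
      v x ^ 2 / (1 + ((‖x - z‖ - R) / ρ) ^ 2) +
        ((n - 1) * (Bf ρ R ‖x - z‖ * v x ^ 2) +
          2 * (Bf ρ R ‖x - z‖ * v x * inner ℝ (∇ v x) (x - z))) := by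
    intro x
    by_cases hx : x = z
    · rw [hx]; simp [hf, hvz]
    · have hp : 0 < ‖x - z‖ := norm_pos_iff.2 (sub_ne_zero.2 hx)
      have h1 := (hasDerivAt_Bf (R := R) hρ hp).comp_hasFDerivAt x (hasFDerivAt_norm_sub hx)
      have h2 := (hv.differentiable x).hasFDerivAt
      have h3 := h1.mul (h2.mul h2)
      have h4 : HasFDerivAt f _ x := h3
      rw [inner_gradient_left, h4.fderiv]
      simp only [add_apply, smul_apply, innerSL_apply_apply, smul_eq_mul, Pi.mul_apply,
        Function.comp_apply, real_inner_self_eq_norm_sq, ← inner_gradient_left]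
      rw [hf]
      field_simp
      ring
  simp only [hpt] at he
  -- integrability
  have hc1 : Continuous fun x => v x ^ 2 / (1 + ((‖x - z‖ - R) / ρ) ^ 2) := by
    have := hv.continuous
    apply Continuous.div (by fun_prop) (by fun_prop)
    intro x
    positivity
  have hi1 : Integrable (fun x => v x ^ 2 / (1 + ((‖x - z‖ - R) / ρ) ^ 2)) volume := by
    refine cc_integrable hc1 (HasCompactSupport.intro hv.compact ?_)
    intro x hx
    rw [image_eq_zero_of_notMem_tsupport hx]; simp
  have hi2 : Integrable (fun x => v x ^ 2 / ‖x - z‖) volume := by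
    have hm : Measurable fun x => v x ^ 2 / ‖x - z‖ :=
      (hv.continuous.pow 2).measurable.div (continuous_id.sub continuous_const).norm.measurable
    refine (hv.integrable_sq.const_mul (δ⁻¹)).mono' hm.aestronglyMeasurable ?_
    apply ae_of_all
    intro x
    rw [Real.norm_of_nonneg (by positivity)]
    by_cases hx : ‖x - z‖ < δ
    · rw [hb x hx]; simp
    · push Not at hx
      rw [div_eq_inv_mul]
      gcongr
  have hrd := rd_integrable hv z
  -- the pointwise bound
  have hbd : ∀ x, v x ^ 2 / (1 + ((‖x - z‖ - R) / ρ) ^ 2) ≤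
      (v x ^ 2 / (1 + ((‖x - z‖ - R) / ρ) ^ 2) +
        ((n - 1) * (Bf ρ R ‖x - z‖ * v x ^ 2) +
          2 * (Bf ρ R ‖x - z‖ * v x * inner ℝ (∇ v x) (x - z)))) +
      Real.pi / 2 * ρ * ((n + 1) * (v x ^ 2 / ‖x - z‖) + s * v x ^ 2 + 1 / s * rd z v x) := by
    intro x
    by_cases hx : x = z
    · rw [hx]
      simp only [hvz, sub_self, norm_zero, inner_zero_right, mul_zero, ne_eq, OfNat.ofNat_ne_zero,
        not_false_eq_true, zero_pow, zero_div, add_zero, zero_add]
      have := rd_nonneg z v z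
      have := Real.pi_pos
      positivity
    · have hp : 0 < ‖x - z‖ := norm_pos_iff.2 (sub_ne_zero.2 hx)
      have hB := abs_Bf_le (R := R) hρ hp.le
      set r := ‖x - z‖ with hr
      set B := Bf ρ R r with hBdef
      set g := inner ℝ (∇ v x) (x - z) with hg
      have hπ := Real.pi_pos
      have h1 : -((n - 1) * (B * v x ^ 2)) ≤ Real.pi / 2 * ρ * ((n + 1) * (v x ^ 2 / r)) := by
        have hn1 : |(n : ℝ) - 1| ≤ n + 1 := by
          rw [abs_le]; constructor
          · have : (0 : ℝ) ≤ n := Nat.cast_nonneg n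
            linarith
          · linarith
        calc -((n - 1) * (B * v x ^ 2)) ≤ |((n : ℝ) - 1) * (B * v x ^ 2)| := neg_le_abs _
          _ = |(n : ℝ) - 1| * (|B| * v x ^ 2) := by
              rw [abs_mul, abs_mul, abs_of_nonneg (sq_nonneg (v x))]
          _ ≤ (n + 1) * ((Real.pi / 2 * ρ / r) * v x ^ 2) := by gcongr
          _ = _ := by ring
      have h2 : -(2 * (B * v x * g)) ≤ Real.pi / 2 * ρ * (s * v x ^ 2 + 1 / s * rd z v x) := by
        have hrd' : rd z v x = (|g| / r) ^ 2 := by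
          unfold rd
          rw [← hg, ← hr, div_pow, sq_abs]
        have hamgm : 2 * (|v x| * (|g| / r)) ≤ s * v x ^ 2 + 1 / s * (|g| / r) ^ 2 := by
          have h3 : 0 ≤ (s * |v x| - |g| / r) ^ 2 / s := by positivity
          have h4 : (s * |v x| - |g| / r) ^ 2 / s = s * |v x| ^ 2 + 1 / s * (|g| / r) ^ 2 -
              2 * (|v x| * (|g| / r)) := by
            field_simp
            ring
          rw [h4, sq_abs] at h3
          linarith
        calc -(2 * (B * v x * g)) ≤ |2 * (B * v x * g)| := neg_le_abs _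
          _ = |B| * (2 * (|v x| * |g|)) := by
              rw [abs_mul, abs_mul, abs_mul, abs_two]; ring
          _ ≤ (Real.pi / 2 * ρ / r) * (2 * (|v x| * |g|)) := by gcongr
          _ = Real.pi / 2 * ρ * (2 * (|v x| * (|g| / r))) := by ring
          _ ≤ Real.pi / 2 * ρ * (s * v x ^ 2 + 1 / s * (|g| / r) ^ 2) := by gcongr
          _ = _ := by rw [hrd']
      linarith
  have hint1 : Integrable (fun x => v x ^ 2 / (1 + ((‖x - z‖ - R) / ρ) ^ 2) +
        ((n - 1) * (Bf ρ R ‖x - z‖ * v x ^ 2) +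
          2 * (Bf ρ R ‖x - z‖ * v x * inner ℝ (∇ v x) (x - z)))) volume := by
    have hfi : Integrable (fun x => n * f x + inner ℝ (∇ f x) (x - z)) volume := by
      have hc : Continuous fun x => n * f x + inner ℝ (∇ f x) (x - z) :=
        (continuous_const.mul hfC.continuous).add
          ((continuous_gradient hfC).inner (continuous_id.sub continuous_const))
      refine cc_integrable hc (HasCompactSupport.intro hfc ?_)
      intro x hx
      rw [image_eq_zero_of_notMem_tsupport hx, gradient_eq_zero_of_notMem_tsupport hx]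
      simp
    refine hfi.congr (ae_of_all _ fun x => ?_)
    exact hpt x
  have hint2 : Integrable (fun x => Real.pi / 2 * ρ * ((n + 1) * (v x ^ 2 / ‖x - z‖) +
      s * v x ^ 2 + 1 / s * rd z v x)) volume :=
    (((hi2.const_mul _).add (hv.integrable_sq.const_mul _)).add (hrd.const_mul _)).const_mul _
  have hfinal := integral_mono hi1 (hint1.add hint2) hbd
  simp only [Pi.add_apply] at hfinal
  have ha : Integrable (fun x => ((n : ℝ) + 1) * (v x ^ 2 / ‖x - z‖)) volume := hi2.const_mul _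
  have hb' : Integrable (fun x => s * v x ^ 2) volume := hv.integrable_sq.const_mul _
  have hab : Integrable (fun x => ((n : ℝ) + 1) * (v x ^ 2 / ‖x - z‖) + s * v x ^ 2) volume :=
    ha.add hb'
  have hcc : Integrable (fun x => 1 / s * rd z v x) volume := hrd.const_mul _
  rw [integral_add hint1 hint2, he, zero_add, integral_const_mul, integral_add hab hcc,
    integral_add ha hb', integral_const_mul, integral_const_mul, integral_const_mul] at hfinal
  exact hfinal

end Pool.Agent.NH67.VB
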