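import Pool.Agent.NH67.VB.Basic
import Pool.Agent.NH67.VB.L2T

/-! # The weak equation tested with `ψ u`, and the Euler identity -/

set_option autoImplicit false

open MeasureTheory Metric Set Filter
open scoped ContDiff Gradient Topology ENNReal

namespace Pool.Agent.NH67.VB

variable {n : ℕ}

/-- the data of an eigenfunction -/
structure EData (Ω : Set (Eu n)) (lam : ℝ) (u : Eu n → ℝ) (G : Eu n → Eu n)
    (φ : ℕ → Eu n → ℝ) : Prop where
  opn : IsOpen Ω
  bdd : Bornology.IsBounded Ω
  test : ∀ k, IsTest Ω (φ k)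
  hu : L2T (volume.restrict Ω) φ u
  hG : L2T (volume.restrict Ω) (fun k => ∇ (φ k)) G
  weak : ∀ ψ : Eu n → ℝ, IsTest Ω ψ →
    ∫ x in Ω, inner ℝ (G x) (∇ ψ x) = lam * ∫ x in Ω, u x * ψ x

theorem bdd_on {Ω : Set (Eu n)} (hb : Bornology.IsBounded Ω) {F : Type*} [NormedAddCommGroup F]
    {X : Eu n → F} (hX : Continuous X) : ∃ C, 0 ≤ C ∧ ∀ x ∈ Ω, ‖X x‖ ≤ C := by
  obtain ⟨C, hC⟩ := (hb.isCompact_closure).exists_bound_of_continuousOn hX.continuousOn
  exact ⟨max C 0, le_max_right _ _, fun x hx => (hC x (subset_closure hx)).trans (le_max_left _ _)⟩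

theorem ae_bdd_on {Ω : Set (Eu n)} (ho : IsOpen Ω) (hb : Bornology.IsBounded Ω) {F : Type*}
    [NormedAddCommGroup F] {X : Eu n → F} (hX : Continuous X) :
    ∃ C, 0 ≤ C ∧ ∀ᵐ x ∂(volume.restrict Ω), ‖X x‖ ≤ C := by
  obtain ⟨C, hC0, hC⟩ := bdd_on hb hX
  exact ⟨C, hC0, by filter_upwards [ae_restrict_mem ho.measurableSet] with x hx using hC x hx⟩

variable {Ω : Set (Eu n)} {lam : ℝ} {u : Eu n → ℝ} {G : Eu n → Eu n} {φ : ℕ → Eu n → ℝ}

/-- multiplication by a continuous function -/
theorem EData.mul (h : EData Ω lam u G φ) {ψ : Eu n → ℝ} (hψ : Continuous ψ) :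
    L2T (volume.restrict Ω) (fun k x => ψ x * φ k x) (fun x => ψ x * u x) := by
  obtain ⟨C, _, hC⟩ := ae_bdd_on h.opn h.bdd hψ
  exact h.hu.mul_bdd hψ.aestronglyMeasurable (C := C) (by simpa only [Real.norm_eq_abs] using hC)

theorem EData.smulG (h : EData Ω lam u G φ) {ψ : Eu n → ℝ} (hψ : Continuous ψ) :
    L2T (volume.restrict Ω) (fun k x => ψ x • ∇ (φ k) x) (fun x => ψ x • G x) := by
  obtain ⟨C, _, hC⟩ := ae_bdd_on h.opn h.bdd hψ
  exact h.hG.smul_bdd hψ.aestronglyMeasurable (C := C) (by simpa only [Real.norm_eq_abs] using hC)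

theorem EData.field (h : EData Ω lam u G φ) {X : Eu n → Eu n} (hX : Continuous X) :
    L2T (volume.restrict Ω) (fun k x => φ k x • X x) (fun x => u x • X x) := by
  obtain ⟨C, _, hC⟩ := ae_bdd_on h.opn h.bdd hX
  exact h.hu.smul_field hX.aestronglyMeasurable hC

/-- the weak equation tested with `ψ u` -/
theorem EData.star (h : EData Ω lam u G φ) {ψ : Eu n → ℝ} (hψ : ContDiff ℝ ∞ ψ) :
    (∫ x in Ω, ψ x * ‖G x‖ ^ 2) + ∫ x in Ω, inner ℝ (G x) (u x • ∇ ψ x) =
      lam * ∫ x in Ω, ψ x * u x ^ 2 := by
  have hψc := hψ.continuous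
  have hψg : Continuous (∇ ψ) := continuous_gradient (contDiff_one_of_smooth hψ)
  have hGc : L2T (volume.restrict Ω) (fun _ => G) G := L2T.const h.hG.mem0
  have huc : L2T (volume.restrict Ω) (fun _ => u) u := L2T.const h.hu.mem0
  have t1 := hGc.tendsto_inner (h.smulG hψc)
  have t2 := hGc.tendsto_inner (h.field hψg)
  have t3 := (huc.tendsto_mul (h.mul hψc)).const_mul lam
  have heq : ∀ k, (∫ x in Ω, inner ℝ (G x) (ψ x • ∇ (φ k) x)) +
      (∫ x in Ω, inner ℝ (G x) (φ k x • ∇ ψ x)) = lam * ∫ x in Ω, u x * (ψ x * φ k x) := by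
    intro k
    have hw := h.weak _ ((h.test k).mul_smooth hψ)
    rw [← hw, ← integral_add]
    · apply integral_congr_ae
      apply ae_of_all
      intro x
      simp only
      rw [gradient_mul ((hψ.differentiable (by simp)) x) ((h.test k).differentiable x),
        inner_add_right]
    · exact integrable_inner' h.hG.mem0 ((h.smulG hψc).mem k)
    · exact integrable_inner' h.hG.mem0 ((h.field hψg).mem k)
  have t4 := t1.add t2
  simp only [heq] at t4
  have := tendsto_nhds_unique t4 t3
  have e1 : ∫ x in Ω, inner ℝ (G x) (ψ x • G x) = ∫ x in Ω, ψ x * ‖G x‖ ^ 2 := by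
    apply integral_congr_ae
    apply ae_of_all
    intro x
    simp only
    rw [inner_smul_right, real_inner_self_eq_norm_sq]
  have e2 : ∫ x in Ω, u x * (ψ x * u x) = ∫ x in Ω, ψ x * u x ^ 2 := by
    apply integral_congr_ae
    apply ae_of_all
    intro x
    simp only
    ring
  rw [e1, e2] at this
  exact this

/-- Euler's identity: `∫ (n f + ⟨∇f, y - p⟩) = 0` for `f ∈ C¹_c`. -/
theorem euler {f : Eu n → ℝ} (hf : ContDiff ℝ 1 f) (hc : HasCompactSupport f) (p : Eu n) :
    ∫ y, (n * f y + inner ℝ (∇ f y) (y - p)) = 0 := by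
  have hgc : Continuous (∇ f) := continuous_gradient hf
  have hgs : HasCompactSupport (∇ f) := hasCompactSupport_gradient hc
  have hfi : Integrable f volume := cc_integrable hf.continuous hc
  have hd : Differentiable ℝ f := hf.differentiable (by norm_num)
  have hfd : Continuous (fderiv ℝ f) := hf.continuous_fderiv (by norm_num)
  have hfds : HasCompactSupport (fderiv ℝ f) := hc.fderiv (𝕜 := ℝ)
  have key : ∀ i : Fin n, ∫ y, (y i - p i) * fderiv ℝ f y (EuclideanSpace.single i 1) =
      - ∫ y, f y := by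
    intro i
    have hcoord : ∀ y : Eu n, HasFDerivAt (fun y : Eu n => y i - p i)
        (EuclideanSpace.proj i : Eu n →L[ℝ] ℝ) y := by
      intro y
      exact (EuclideanSpace.proj i : Eu n →L[ℝ] ℝ).hasFDerivAt.sub_const _
    have hcc : Continuous fun y : Eu n => y i - p i :=
      (EuclideanSpace.proj i : Eu n →L[ℝ] ℝ).continuous.sub continuous_const
    have hfv : Continuous fun y => fderiv ℝ f y (EuclideanSpace.single i 1) :=
      hfd.clm_apply continuous_const
    have hfvs : HasCompactSupport fun y => fderiv ℝ f y (EuclideanSpace.single i 1) := by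
      apply HasCompactSupport.intro hfds
      intro x hx
      rw [image_eq_zero_of_notMem_tsupport hx]
      simp
    have hder : ∀ y : Eu n, fderiv ℝ (fun y : Eu n => y i - p i) y (EuclideanSpace.single i 1) =
        1 := by
      intro y
      rw [(hcoord y).fderiv]
      simp
    rw [integral_mul_fderiv_eq_neg_fderiv_mul_of_integrable]
    · congr 1
      apply integral_congr_ae
      apply ae_of_all
      intro y
      simp only [hder, one_mul]
    · simp only [hder, one_mul]
      exact hfi
    · exact cc_integrable (hcc.mul hfv) hfvs.mul_left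
    · exact cc_integrable (hcc.mul hf.continuous) hc.mul_left
    · intro y _
      exact (hcoord y).differentiableAt
    · intro y _
      exact hd y
  have hsum : ∀ y : Eu n, inner ℝ (∇ f y) (y - p) =
      ∑ i : Fin n, (y i - p i) * fderiv ℝ f y (EuclideanSpace.single i 1) := by
    intro y
    rw [inner_gradient_left]
    have e : y - p = ∑ i : Fin n, (y i - p i) • EuclideanSpace.single i (1 : ℝ) := by
      ext j
      simp [Finset.sum_apply, Pi.single_apply]
    conv_lhs => rw [e]
    rw [map_sum]
    apply Finset.sum_congr rfl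
    intro i _
    rw [map_smul, smul_eq_mul]
  have hint : ∀ i : Fin n, Integrable
      (fun y : Eu n => (y i - p i) * fderiv ℝ f y (EuclideanSpace.single i 1)) volume := by
    intro i
    have hcc : Continuous fun y : Eu n => y i - p i :=
      (EuclideanSpace.proj i : Eu n →L[ℝ] ℝ).continuous.sub continuous_const
    have hfv : Continuous fun y => fderiv ℝ f y (EuclideanSpace.single i 1) :=
      hfd.clm_apply continuous_const
    have hfvs : HasCompactSupport fun y => fderiv ℝ f y (EuclideanSpace.single i 1) := by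
      apply HasCompactSupport.intro hfds
      intro x hx
      rw [image_eq_zero_of_notMem_tsupport hx]
      simp
    exact cc_integrable (hcc.mul hfv) hfvs.mul_left
  simp only [hsum]
  rw [integral_add (hfi.const_mul _) (integrable_finsetSum _ fun i _ => hint i),
    integral_finsetSum _ fun i _ => hint i]
  simp only [key]
  rw [integral_const_mul, Finset.sum_const, Finset.card_univ, Fintype.card_fin]
  simp

end Pool.Agent.NH67.VB
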